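import Mathlib

set_option autoImplicit false

namespace Pool.Agent.H102Z.Hier

/-- The ball of radius `L ^ n` of the hierarchical lattice: sequences of length `n` with terms in
the `d`-th power of the integers modulo `L` (the coordinate `i : Fin n` is the `(i+1)`-st term). -/
abbrev Lam (d L n : ℕ) : Type := Fin n → Fin d → ZMod L

/-- The largest index (counted from `1`) of a nonzero term, and `0` for the zero sequence. -/
noncomputable def level {d L n : ℕ} (x : Lam d L n) : ℕ :=
  open Classical in Finset.univ.sup fun i : Fin n => if x i = 0 then 0 else i.val + 1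

/-- The hierarchical norm. -/
noncomputable def hnorm {d L n : ℕ} (x : Lam d L n) : ℝ :=
  open Classical in if x = 0 then 0 else (L : ℝ) ^ level x

/-- The kernel `max (J(x,y) / ζ + λ L^(-4nd/3)) 0` with `J(x,y) = ρ(‖x - y‖)`. -/
noncomputable def kappa {d L n : ℕ} (ρ : ℝ → ℝ) (ζ lam : ℝ) (x y : Lam d L n) : ℝ :=
  max (ρ (hnorm (x - y)) / ζ + lam * (L : ℝ) ^ (-(4 * (n : ℝ) * d / 3))) 0

theorem hnorm_neg {d L n : ℕ} (x : Lam d L n) : hnorm (-x) = hnorm x := by
  simp [hnorm, level]

/-- The probability `1 - exp (-κ(x,y))` of the unordered pair `{x, y}`. -/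
noncomputable def edgeProb {d L n : ℕ} (ρ : ℝ → ℝ) (ζ lam : ℝ) : Sym2 (Lam d L n) → ℝ :=
  Sym2.lift ⟨fun x y => 1 - Real.exp (-kappa ρ ζ lam x y), fun x y => by
    simp only [kappa]
    rw [← hnorm_neg (x - y), neg_sub]⟩

/-- The probability of the event `E` for the random graph on `V` in which each pair `e` of distinct
vertices is an edge independently with probability `p e`. -/
noncomputable def graphProb {V : Type} [Fintype V] (p : Sym2 V → ℝ) (E : SimpleGraph V → Prop) :
    ℝ :=
  open Classical in
  ∑ s ∈ (Finset.univ.filter fun e : Sym2 V => ¬ e.IsDiag).powerset,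
    (∏ e ∈ s, p e) * (∏ e ∈ (Finset.univ.filter fun e : Sym2 V => ¬ e.IsDiag) \ s, (1 - p e)) *
      (if E (SimpleGraph.fromEdgeSet (s : Set (Sym2 V))) then 1 else 0)

/-- `G` has at least `i` components, and every component with fewer than `i` strictly larger
components contains a triangle. -/
def TopTriangle {V : Type} (i : ℕ) (G : SimpleGraph V) : Prop :=
  i ≤ Nat.card G.ConnectedComponent ∧
  ∀ C : G.ConnectedComponent,
    {C' : G.ConnectedComponent | C.supp.ncard < C'.supp.ncard}.ncard < i →
    ∃ a b c : V, a ∈ C.supp ∧ G.Adj a b ∧ G.Adj b c ∧ G.Adj c a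

end Pool.Agent.H102Z.Hier
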