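import Pool.Agent.H102Z.Hier.Tri
import Pool.Agent.H102Z.Hier.Defs

set_option autoImplicit false

namespace Pool.Agent.H102Z.Hier

open Finset Real

variable {V : Type} [Fintype V] [DecidableEq V] {p : Sym2 V → ℝ}

open Classical in
/-- the cluster of `x` -/
noncomputable def cl (ω : Finset (Sym2 V)) (x : V) : Finset V := univ.filter (Re ω x)

theorem mem_cl {ω : Finset (Sym2 V)} {x v : V} : v ∈ cl ω x ↔ Re ω x v := by simp [cl]

theorem card_cl (ω : Finset (Sym2 V)) (x : V) : (cl ω x).card = (out {x} ω).card + 1 := by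
  have h : cl ω x = insert x (out {x} ω) := by
    ext v
    simp only [mem_cl, mem_insert, mem_out, mem_singleton, exists_eq_left]
    constructor
    · intro h
      by_cases hv : v = x
      · exact Or.inl hv
      · exact Or.inr ⟨hv, h⟩
    · rintro (rfl | h)
      · exact Relation.ReflTransGen.refl
      · exact h.2
  rw [h, card_insert_of_notMem]
  rw [mem_out]
  exact fun h => h.1 (mem_singleton_self _)

theorem cl_eq {ω : Finset (Sym2 V)} {x y : V} (h : Re ω x y) : cl ω x = cl ω y := by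
  ext v
  simp only [mem_cl]
  exact ⟨fun h' => h.symm.trans h', fun h' => h.trans h'⟩

theorem M_single (hp : ∀ e, 0 ≤ p e) (x : V) (D : Finset (Sym2 V)) :
    W p (fun _ => 1) {x} D ≤ ∑ y, p s(x, y) := by
  have h := M_open hp (S := ∅) D (z := x) (notMem_empty x)
  have h0 : W p (fun _ => 1) ∅ D = 0 := by simp [W]
  rw [h0, zero_add] at h
  exact h

open Classical in
theorem pi_lower (hp : ∀ e, 0 ≤ p e ∧ p e ≤ 1 / 10) (hdiag : ∀ x, p s(x, x) = 0) {s ε : ℝ}
    (hs0 : 0 < s) (hs : s ≤ 1 / 100) (hε0 : 0 ≤ ε) (hε : ε ≤ s) {K : ℕ} (hK : 1 ≤ K)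
    (hdeg : ∀ z, 1 - ε ≤ ∑ y, p s(z, y) ∧ ∑ y, p s(z, y) ≤ 2)
    (h1 : ∀ S : Finset V, S.card ≤ K → ∀ y, dd p S y ≤ 1 / 4)
    (h2 : ∀ S : Finset V, S.card ≤ K → ∀ z, ∑ y, p s(z, y) * dd p S y ≤ ε)
    {D : Finset (Sym2 V)} (hD : ∀ a b, a ≠ b → s(a, b) ∈ D) (x : V) :
    exp (-(26000 * s ^ 2 * K)) * (s ^ 2 / 64) ≤
      Ex p D (fun ω => if K ≤ (cl ω x).card then 1 else 0) := by
  have hp0 : ∀ e, 0 ≤ p e := fun e => (hp e).1
  obtain ⟨k, rfl⟩ : ∃ k, K = k + 1 := ⟨K - 1, by omega⟩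
  have h := lower_rec hp hdiag hs0 hs hε0 hε hdeg h1 h2 D {x} k (by simp; omega)
    fun a b _ _ hab => hD a b hab
  simp only [card_cl, Nat.add_le_add_iff_right]
  refine le_trans (mul_le_mul (exp_le_exp.2 ?_) (psi_ge hs0.le (by linarith) ?_) (by positivity)
    (exp_pos _).le) h
  · have := (M_single hp0 x D).trans (hdeg x).2
    push_cast
    nlinarith [sq_nonneg s]
  · have a1 : ∑ y ∈ ({x} : Finset V)ᶜ, p s(x, y) = ∑ y, p s(x, y) := by
      rw [← sum_add_sum_compl ({x} : Finset V), sum_singleton, hdiag, zero_add]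
    have a2 : ∑ y ∈ ({x} : Finset V)ᶜ, p s(x, y) * (1 / 2) ≤
        W p (fun y => 1 - 2 * dd p {x} y) {x} D := by
      unfold W
      rw [sum_singleton]
      refine sum_le_sum fun y hy => ?_
      rw [if_pos (hD x y (fun h => (mem_compl.1 hy) (h ▸ mem_singleton_self _)))]
      exact mul_le_mul_of_nonneg_left (by linarith [h1 {x} (by simp) y]) (hp0 _)
    rw [← sum_mul, a1] at a2
    linarith [(hdeg x).1]

open Classical in
theorem pi_upper (hp : ∀ e, 0 ≤ p e ∧ p e ≤ 1 / 10) {s : ℝ} (hs0 : 0 < s) (hs : s ≤ 1 / 100)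
    (hdeg : ∀ z, ∑ y, p s(z, y) ≤ 1 + s / 10) {K : ℕ} (hK : 1 ≤ s ^ 2 / 10 * (K - 1))
    (D : Finset (Sym2 V)) (x : V) :
    Ex p D (fun ω => if K ≤ (cl ω x).card then 1 else 0) ≤ 4 * s := by
  have hp0 : ∀ e, 0 ≤ p e := fun e => (hp e).1
  have hp1 : ∀ e, 0 ≤ p e ∧ p e ≤ 1 := fun e => ⟨(hp e).1, by linarith [(hp e).2]⟩
  have h := upper_rec hp hs0 hs hdeg D {x}
  have h1 : Ex p D (fun ω => if K ≤ (cl ω x).card then 1 else 0) ≤
      Ex p D (fun ω => 2 * (1 - exp (-(s ^ 2 / 10 * (out {x} ω).card)))) := by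
    refine Ex_mono hp1 fun ω _ => ?_
    split_ifs with hc
    · rw [card_cl] at hc
      have a1 : (K : ℝ) - 1 ≤ (out {x} ω).card := by
        have : (K : ℝ) ≤ (out {x} ω).card + 1 := by exact_mod_cast hc
        linarith
      have a2 : exp (-(s ^ 2 / 10 * (out {x} ω).card)) ≤ exp (-(2 * (1 / 2))) := by
        refine exp_le_exp.2 ?_
        have := mul_le_mul_of_nonneg_left a1 (show 0 ≤ s ^ 2 / 10 by positivity)
        linarith
      linarith [exp_two_le (1 / 2) (by norm_num) le_rfl]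
    · have : exp (-(s ^ 2 / 10 * (out {x} ω).card)) ≤ 1 := exp_le_one_iff.2 (neg_nonpos.2 (by positivity))
      linarith
  rw [Ex_mul, Ex_sub, Ex_const] at h1
  have h2 := (M_single hp0 x D).trans (hdeg x)
  have h3 := add_one_le_exp (-(s * W p (fun _ => 1) {x} D))
  have h4 : s * W p (fun _ => 1) {x} D ≤ s * 2 := mul_le_mul_of_nonneg_left (by linarith) hs0.le
  linarith

open Classical in
/-- vertices whose cluster has intermediate size -/
noncomputable def mid (K K₂ : ℕ) (ω : Finset (Sym2 V)) : Finset V :=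
  univ.filter fun x => K ≤ (cl ω x).card ∧ (cl ω x).card < K₂

theorem mem_mid {K K₂ : ℕ} {ω : Finset (Sym2 V)} {x : V} :
    x ∈ mid K K₂ ω ↔ K ≤ (cl ω x).card ∧ (cl ω x).card < K₂ := by simp [mid]

theorem mid_lip (K K₂ : ℕ) (e : Sym2 V) (ω : Finset (Sym2 V)) :
    |((mid K K₂ (insert e ω)).card : ℝ) - (mid K K₂ ω).card| ≤ 2 * K₂ := by
  classical
  induction e using Sym2.ind with
  | _ a b =>
  let U : V → Finset V := fun a => if (cl ω a).card < K₂ then cl ω a else ∅
  have hU : ∀ a, (U a).card ≤ K₂ := fun a => by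
    simp only [U]
    split_ifs with h
    · exact h.le
    · simp
  have key : ∀ x, x ∉ U a ∪ U b → (x ∈ mid K K₂ (insert s(a, b) ω) ↔ x ∈ mid K K₂ ω) := by
    intro x hx
    have hmono : (cl ω x).card ≤ (cl (insert s(a, b) ω) x).card :=
      card_le_card fun v hv => mem_cl.2 ((mem_cl.1 hv).mono (subset_insert _ _))
    have hbig : ∀ c, x ∉ U c → Re ω x c → K₂ ≤ (cl ω x).card := by
      intro c hc h
      by_contra hcon
      apply hc
      simp only [U]
      rw [← cl_eq h, if_pos (not_le.1 hcon)]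
      exact mem_cl.2 Relation.ReflTransGen.refl
    by_cases hb : K₂ ≤ (cl ω x).card
    · simp only [mem_mid]
      constructor <;> intro h <;> omega
    · have e : cl (insert s(a, b) ω) x = cl ω x := by
        ext v
        simp only [mem_cl]
        exact ⟨re_insert (fun h => hb (hbig a (fun h' => hx (mem_union_left _ h')) h))
          (fun h => hb (hbig b (fun h' => hx (mem_union_right _ h')) h)),
          fun h => h.mono (subset_insert _ _)⟩
      simp only [mem_mid, e]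
  have hc : (U a ∪ U b).card ≤ 2 * K₂ := (card_union_le _ _).trans (by
    have := hU a
    have := hU b
    omega)
  have h1 : (mid K K₂ (insert s(a, b) ω)).card ≤ (mid K K₂ ω).card + 2 * K₂ := by
    refine le_trans (card_le_card (t := mid K K₂ ω ∪ (U a ∪ U b)) fun x hx => ?_)
      ((card_union_le _ _).trans (by omega))
    by_cases h : x ∈ U a ∪ U b
    · exact mem_union_right _ h
    · exact mem_union_left _ ((key x h).1 hx)
  have h2 : (mid K K₂ ω).card ≤ (mid K K₂ (insert s(a, b) ω)).card + 2 * K₂ := by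
    refine le_trans (card_le_card (t := mid K K₂ (insert s(a, b) ω) ∪ (U a ∪ U b)) fun x hx => ?_)
      ((card_union_le _ _).trans (by omega))
    by_cases h : x ∈ U a ∪ U b
    · exact mem_union_right _ h
    · exact mem_union_left _ ((key x h).2 hx)
  have h1' : ((mid K K₂ (insert s(a, b) ω)).card : ℝ) ≤ (mid K K₂ ω).card + 2 * K₂ := by
    exact_mod_cast h1
  have h2' : ((mid K K₂ ω).card : ℝ) ≤ (mid K K₂ (insert s(a, b) ω)).card + 2 * K₂ := by
    exact_mod_cast h2
  rw [abs_le]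
  constructor <;> linarith

omit [Fintype V] [DecidableEq V] in
theorem reach_iff (ω : Finset (Sym2 V)) (a b : V) :
    (SimpleGraph.fromEdgeSet (ω : Set (Sym2 V))).Reachable a b ↔ Re ω a b := by
  rw [SimpleGraph.reachable_iff_reflTransGen]
  constructor
  · intro h
    induction h with
    | refl => exact Relation.ReflTransGen.refl
    | tail _ h ih => exact ih.tail (by simpa using ((SimpleGraph.fromEdgeSet_adj _).1 h).1)
  · intro h
    induction h with
    | refl => exact Relation.ReflTransGen.refl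
    | @tail c d _ h ih =>
      by_cases hcd : c = d
      · exact hcd ▸ ih
      · exact ih.tail ((SimpleGraph.fromEdgeSet_adj _).2 ⟨by simpa using h, hcd⟩)

theorem supp_ncard (ω : Finset (Sym2 V)) (x : V) :
    ((SimpleGraph.fromEdgeSet (ω : Set (Sym2 V))).connectedComponentMk x).supp.ncard =
      (cl ω x).card := by
  rw [← Set.ncard_coe_finset]
  congr 1
  ext v
  simp only [SimpleGraph.ConnectedComponent.mem_supp_iff, SimpleGraph.ConnectedComponent.eq,
    mem_coe, mem_cl, reach_iff]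
  exact ⟨Re.symm, Re.symm⟩

theorem top_of {K K₂ i : ℕ} {ω : Finset (Sym2 V)} (h1 : i * K₂ < (mid K K₂ ω).card)
    (h2 : ∀ x, K ≤ (cl ω x).card → ∃ a b c, Re ω x a ∧ s(a, b) ∈ ω ∧ s(b, c) ∈ ω ∧ s(c, a) ∈ ω ∧
      a ≠ b ∧ b ≠ c ∧ c ≠ a) : TopTriangle i (SimpleGraph.fromEdgeSet (ω : Set (Sym2 V))) := by
  classical
  set G := SimpleGraph.fromEdgeSet (ω : Set (Sym2 V)) with hG
  have h3 := card_le_mul_card_image (f := G.connectedComponentMk) (mid K K₂ ω) K₂ (by
    intro C hC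
    obtain ⟨x, hx, rfl⟩ := mem_image.1 hC
    refine le_trans (card_le_card (t := cl ω x) fun y hy => ?_) (mem_mid.1 hx).2.le
    have := (mem_filter.1 hy).2
    rw [SimpleGraph.ConnectedComponent.eq, hG, reach_iff] at this
    exact mem_cl.2 this.symm)
  have h4 : i ≤ ((mid K K₂ ω).image G.connectedComponentMk).card := by
    by_contra hcon
    have := Nat.mul_le_mul_left K₂ (not_le.1 hcon).le
    rw [mul_comm K₂ i] at this
    omega
  refine ⟨h4.trans ?_, fun C hC => ?_⟩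
  · rw [← Set.ncard_coe_finset, ← Set.ncard_univ]
    exact Set.ncard_le_ncard (Set.subset_univ _)
  · induction C using SimpleGraph.ConnectedComponent.ind with
    | _ x =>
    have h5 : K ≤ (cl ω x).card := by
      by_contra hcon
      refine absurd hC (not_lt.2 (h4.trans ?_))
      rw [← Set.ncard_coe_finset]
      refine Set.ncard_le_ncard fun C' hC' => ?_
      obtain ⟨y, hy, rfl⟩ := mem_image.1 (mem_coe.1 hC')
      rw [Set.mem_ofPred_eq, hG, supp_ncard, supp_ncard]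
      have := (mem_mid.1 hy).1
      omega
    obtain ⟨a, b, c, ha, hab, hbc, hca, n1, n2, n3⟩ := h2 x h5
    refine ⟨a, b, c, ?_, (SimpleGraph.fromEdgeSet_adj _).2 ⟨by simpa using hab, n1⟩,
      (SimpleGraph.fromEdgeSet_adj _).2 ⟨by simpa using hbc, n2⟩,
      (SimpleGraph.fromEdgeSet_adj _).2 ⟨by simpa using hca, n3⟩⟩
    rw [SimpleGraph.ConnectedComponent.mem_supp_iff, SimpleGraph.ConnectedComponent.eq, hG,
      reach_iff]
    exact ha.symm

theorem sum_p_le (hp : ∀ e, 0 ≤ p e) (hdeg : ∀ z, ∑ y, p s(z, y) ≤ 2) (D : Finset (Sym2 V)) :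
    ∑ e ∈ D, p e ≤ 2 * Fintype.card V := by
  have h1 : ∑ e ∈ D, p e ≤ ∑ e ∈ (univ : Finset (V × V)).image (fun z => s(z.1, z.2)), p e := by
    refine sum_le_sum_of_subset_of_nonneg (fun e _ => ?_) fun e _ _ => hp e
    induction e using Sym2.ind with
    | _ a b => exact mem_image.2 ⟨(a, b), mem_univ _, rfl⟩
  refine h1.trans ((sum_image_le_of_nonneg fun e _ => hp e).trans ?_)
  rw [Fintype.sum_prod_type]
  refine (sum_le_sum fun z _ => hdeg z).trans ?_
  simp [mul_comm]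

open Classical in
theorem abstract_bound (hp : ∀ e, 0 ≤ p e ∧ p e ≤ 1 / 10) (hdiag : ∀ x, p s(x, x) = 0)
    {s ε s' τ μ : ℝ} (hs0 : 0 < s) (hs : s ≤ 1 / 100) (hε0 : 0 ≤ ε) (hε : ε ≤ s) {K K₂ k i : ℕ}
    (hK : 1 ≤ K) (hs0' : 0 < s') (hs' : s' ≤ 1 / 100)
    (hdeg : ∀ z, 1 - ε ≤ ∑ y, p s(z, y) ∧ ∑ y, p s(z, y) ≤ 1 + s' / 10)
    (h1 : ∀ S : Finset V, S.card ≤ K → ∀ y, dd p S y ≤ 1 / 4)
    (h2 : ∀ S : Finset V, S.card ≤ K → ∀ z, ∑ y, p s(z, y) * dd p S y ≤ ε)
    (hK₂ : 1 ≤ s' ^ 2 / 10 * (K₂ - 1)) (hμ0 : 0 < μ) (hi : (i : ℝ) * K₂ ≤ μ)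
    (hμ : 2 * μ ≤ Fintype.card V * (exp (-(26000 * s ^ 2 * K)) * (s ^ 2 / 64) - 4 * s'))
    {B H : Type} [Fintype H] [Nonempty H] (r : V → B) (pos : V → H) (a b : V → V)
    (hra : ∀ y, r (a y) = r y) (hrb : ∀ y, r (b y) = r y)
    (hinj : ∀ y y', r y = r y' → pos y = pos y' → y = y')
    (hne : ∀ y, y ≠ a y ∧ a y ≠ b y ∧ b y ≠ y) (hτ0 : 0 ≤ τ)
    (hτ : ∀ y y', y ≠ y' → r y = r y' → τ ≤ p s(y, y')) (hk : Fintype.card H * k ≤ K)
    {D : Finset (Sym2 V)} (hD : ∀ a b, a ≠ b → s(a, b) ∈ D) :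
    1 - ((2 * K₂) ^ 2 * (2 * Fintype.card V) / μ ^ 2 +
        Fintype.card V * (Fintype.card H * exp (-(τ ^ 3 * k)))) ≤
      Ex p D (fun ω => if TopTriangle i (SimpleGraph.fromEdgeSet (ω : Set (Sym2 V))) then 1
        else 0) := by
  have hp0 : ∀ e, 0 ≤ p e := fun e => (hp e).1
  have hp1 : ∀ e, 0 ≤ p e ∧ p e ≤ 1 := fun e => ⟨(hp e).1, by linarith [(hp e).2]⟩
  have hdeg2 : ∀ z, 1 - ε ≤ ∑ y, p s(z, y) ∧ ∑ y, p s(z, y) ≤ 2 := fun z =>
    ⟨(hdeg z).1, by linarith [(hdeg z).2]⟩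
  -- the mean number of vertices in clusters of intermediate size
  have e1 : 2 * μ ≤ Ex p D (fun ω => ((mid K K₂ ω).card : ℝ)) := by
    have a1 : Ex p D (fun ω => ∑ x : V, ((if K ≤ (cl ω x).card then 1 else 0) -
        (if K₂ ≤ (cl ω x).card then 1 else 0))) ≤ Ex p D (fun ω => ((mid K K₂ ω).card : ℝ)) := by
      refine Ex_mono hp1 fun ω _ => ?_
      unfold mid
      rw [card_filter]
      push_cast
      refine sum_le_sum fun x _ => ?_
      by_cases b1 : K ≤ (cl ω x).card <;> by_cases b2 : K₂ ≤ (cl ω x).card <;>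
        simp [b1, b2, not_lt.2, not_le.1]
    rw [Ex_sum] at a1
    refine hμ.trans (le_trans ?_ a1)
    rw [← nsmul_eq_mul, ← card_univ, ← sum_const]
    refine sum_le_sum fun x _ => ?_
    rw [Ex_sub]
    linarith [pi_lower hp hdiag hs0 hs hε0 hε hK hdeg2 h1 h2 hD x,
      pi_upper hp hs0' hs' (fun z => (hdeg z).2) hK₂ D x]
  have e2 := Ex_cheb (D := D) hp1 hμ0 (mid_lip K K₂) e1
  have e3 : (2 * (K₂ : ℝ)) ^ 2 * (∑ e ∈ D, p e) / μ ^ 2 ≤
      (2 * K₂) ^ 2 * (2 * Fintype.card V) / μ ^ 2 :=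
    div_le_div_of_nonneg_right (mul_le_mul_of_nonneg_left
      (sum_p_le hp0 (fun z => (hdeg2 z).2) D) (by positivity)) (by positivity)
  -- triples
  let T : ∀ h : H, {y // pos y = h} → Finset V := fun h y => {y.1, a y.1, b y.1}
  let E : ∀ h : H, {y // pos y = h} → Finset (Sym2 V) := fun h y =>
    {s(y.1, a y.1), s(a y.1, b y.1), s(b y.1, y.1)}
  have e4 : ∀ (x : V) (h : H), Ex p D (fun ω => if k ≤ (touch (T h) x ω).card ∧
      ∀ β ∈ touch (T h) x ω, ¬ E h β ⊆ ω then 1 else 0) ≤ exp (-(τ ^ 3 * k)) := by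
    intro x h
    refine tri_bound hp1 (T h) (E h) ?_ ?_ ?_ (by positivity) ?_ x k
    · intro β e he
      simp only [E, mem_insert, mem_singleton] at he
      rcases he with rfl | rfl | rfl
      · exact hD _ _ (hne _).1
      · exact hD _ _ (hne _).2.1
      · exact hD _ _ (hne _).2.2
    · intro β u v he
      simp only [E, mem_insert, mem_singleton, Sym2.eq_iff] at he
      simp only [T, mem_insert, mem_singleton]
      tauto
    · intro β β' v h1 h2
      have c : ∀ γ : {y // pos y = h}, v ∈ T h γ → r v = r γ.1 := by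
        intro γ hγ
        simp only [T, mem_insert, mem_singleton] at hγ
        rcases hγ with rfl | rfl | rfl
        · rfl
        · exact hra _
        · exact hrb _
      exact Subtype.ext (hinj _ _ ((c β h1).symm.trans (c β' h2)) (β.2.trans β'.2.symm))
    · intro β
      obtain ⟨n1, n2, n3⟩ := hne β.1
      have c1 : s(β.1, a β.1) ∉ ({s(a β.1, b β.1), s(b β.1, β.1)} : Finset (Sym2 V)) := by
        simp only [mem_insert, mem_singleton, Sym2.eq_iff]
        rintro ((h | h) | (h | h))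
        · exact n1 h.1
        · exact n3 h.1.symm
        · exact n3 h.1.symm
        · exact n2 h.2
      have c2 : s(a β.1, b β.1) ∉ ({s(b β.1, β.1)} : Finset (Sym2 V)) := by
        simp only [mem_singleton, Sym2.eq_iff]
        rintro (h | h)
        · exact n2 h.1
        · exact n1 h.1.symm
      simp only [E]
      rw [prod_insert c1, prod_insert c2, prod_singleton]
      have d1 := hτ _ _ n1 (hra _).symm
      have d2 := hτ _ _ n2 ((hra _).trans (hrb _).symm)
      have d3 := hτ _ _ n3 (hrb _)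
      constructor
      · calc τ ^ 3 = τ * (τ * τ) := by ring
          _ ≤ _ := mul_le_mul d1 (mul_le_mul d2 d3 hτ0 (hp0 _)) (by positivity) (hp0 _)
      · have f1 := mul_le_one₀ (hp1 s(a β.1, b β.1)).2 (hp0 s(b β.1, β.1)) (hp1 _).2
        have f2 := mul_le_mul_of_nonneg_left f1 (hp0 s(β.1, a β.1))
        linarith [(hp s(β.1, a β.1)).2]
  have e5 : Ex p D (fun ω => ∑ x : V, ∑ h : H, if k ≤ (touch (T h) x ω).card ∧
      ∀ β ∈ touch (T h) x ω, ¬ E h β ⊆ ω then 1 else 0) ≤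
      Fintype.card V * (Fintype.card H * exp (-(τ ^ 3 * k))) := by
    rw [Ex_sum, ← nsmul_eq_mul, ← card_univ, ← sum_const]
    refine sum_le_sum fun x _ => ?_
    rw [Ex_sum, ← nsmul_eq_mul, ← card_univ, ← sum_const]
    exact sum_le_sum fun h _ => e4 x h
  have e6 : Ex p D (fun ω => 1 - ((if ((mid K K₂ ω).card : ℝ) ≤ μ then 1 else 0) +
      ∑ x : V, ∑ h : H, if k ≤ (touch (T h) x ω).card ∧
      ∀ β ∈ touch (T h) x ω, ¬ E h β ⊆ ω then 1 else 0)) ≤
      Ex p D (fun ω => if TopTriangle i (SimpleGraph.fromEdgeSet (ω : Set (Sym2 V))) then 1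
        else 0) := by
    refine Ex_mono hp1 fun ω _ => ?_
    have g0 : ∀ (x : V) (h : H), (0 : ℝ) ≤ if k ≤ (touch (T h) x ω).card ∧
      ∀ β ∈ touch (T h) x ω, ¬ E h β ⊆ ω then 1 else 0 := fun x h => by
      split_ifs <;> norm_num
    have g1 : (0 : ℝ) ≤ ∑ x : V, ∑ h : H, if k ≤ (touch (T h) x ω).card ∧
      ∀ β ∈ touch (T h) x ω, ¬ E h β ⊆ ω then 1 else 0 :=
      sum_nonneg fun x _ => sum_nonneg fun h _ => g0 x h
    have g2 : (0 : ℝ) ≤ if ((mid K K₂ ω).card : ℝ) ≤ μ then 1 else 0 := by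
      split_ifs <;> norm_num
    by_cases g3 : TopTriangle i (SimpleGraph.fromEdgeSet (ω : Set (Sym2 V)))
    · rw [if_pos g3]
      linarith
    rw [if_neg g3]
    by_cases g4 : ((mid K K₂ ω).card : ℝ) ≤ μ
    · rw [if_pos g4]
      linarith
    have g5 : i * K₂ < (mid K K₂ ω).card := by
      have : (i : ℝ) * K₂ < (mid K K₂ ω).card := hi.trans_lt (not_le.1 g4)
      exact_mod_cast this
    have g6 : ∃ x h, k ≤ (touch (T h) x ω).card ∧ ∀ β ∈ touch (T h) x ω, ¬ E h β ⊆ ω := by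
      by_contra hcon
      apply g3
      refine top_of g5 fun x hx => ?_
      obtain ⟨h, -, hh⟩ := exists_le_card_fiber_of_mul_le_card_of_maps_to (s := cl ω x)
        (t := (univ : Finset H)) (f := pos) (n := k) (fun _ _ => mem_univ _) univ_nonempty
        (hk.trans hx)
      have g7 : k ≤ (touch (T h) x ω).card := by
        refine hh.trans ?_
        rw [← card_map (Function.Embedding.subtype _) (s := touch (T h) x ω)]
        refine card_le_card fun y hy => ?_
        obtain ⟨y1, y2⟩ := mem_filter.1 hy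
        refine mem_map.2 ⟨⟨y, y2⟩, ?_, rfl⟩
        simp only [touch, mem_filter, mem_univ, true_and]
        exact ⟨y, by simp [T], mem_cl.1 y1⟩
      have g8 : ∃ β ∈ touch (T h) x ω, E h β ⊆ ω := by
        by_contra hc
        exact hcon ⟨x, h, g7, fun β hβ h' => hc ⟨β, hβ, h'⟩⟩
      obtain ⟨β, hβ, hE⟩ := g8
      have m1 : s(β.1, a β.1) ∈ ω := hE (by simp [E])
      have m2 : s(a β.1, b β.1) ∈ ω := hE (by simp [E])
      have m3 : s(b β.1, β.1) ∈ ω := hE (by simp [E])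
      simp only [touch, mem_filter, mem_univ, true_and] at hβ
      obtain ⟨v, hv, hxv⟩ := hβ
      refine ⟨β.1, a β.1, b β.1, ?_, m1, m2, m3, hne _⟩
      simp only [T, mem_insert, mem_singleton] at hv
      rcases hv with rfl | rfl | rfl
      · exact hxv
      · exact hxv.tail (by rwa [Sym2.eq_swap])
      · exact hxv.tail m3
    obtain ⟨x, h, g7⟩ := g6
    have g8 : (1 : ℝ) ≤ ∑ x : V, ∑ h : H, if k ≤ (touch (T h) x ω).card ∧
        ∀ β ∈ touch (T h) x ω, ¬ E h β ⊆ ω then 1 else 0 := by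
      refine le_trans ?_ (single_le_sum (fun x _ => sum_nonneg fun h _ => g0 x h) (mem_univ x))
      refine le_trans ?_ (single_le_sum (fun h _ => g0 x h) (mem_univ h))
      rw [if_pos g7]
    linarith
  rw [Ex_sub, Ex_const, Ex_add] at e6
  linarith

end Pool.Agent.H102Z.Hier
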