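import Mathlib

set_option autoImplicit false

namespace Pool.Agent.H102Z.Hier

/-- `G` has a component with at least `t` vertices, and every component with at least `t` vertices
contains a triangle. -/
def BigTriangle {V : Type} (t : ℝ) (G : SimpleGraph V) : Prop :=
  (∃ C : G.ConnectedComponent, t ≤ C.supp.ncard) ∧
  ∀ C : G.ConnectedComponent, t ≤ C.supp.ncard →
    ∃ a b c : V, a ∈ C.supp ∧ G.Adj a b ∧ G.Adj b c ∧ G.Adj c a

end Pool.Agent.H102Z.Hier
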