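import Pool.Agent.H102Z.Hier.Abs
import Pool.Agent.H102Z.Hier.Defs2

set_option autoImplicit false

namespace Pool.Agent.H102Z.Hier

open Finset Real

theorem Ex_mono_p {ι : Type} [DecidableEq ι] {p p' : ι → ℝ} (hp : ∀ e, 0 ≤ p e ∧ p e ≤ 1)
    (hp' : ∀ e, p e ≤ p' e ∧ p' e ≤ 1) {D : Finset ι} {f : Finset ι → ℝ}
    (hf : ∀ s t, s ⊆ t → f s ≤ f t) : Ex p D f ≤ Ex p' D f := by
  induction D using Finset.induction_on generalizing f with
  | empty => simp [Ex_empty]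
  | insert e D he ih =>
    rw [Ex_insert he, Ex_insert he]
    have h1 := ih hf
    have h2 := ih (f := fun s => f (insert e s)) fun s t h => hf _ _ (insert_subset_insert e h)
    have h3 : Ex p D f ≤ Ex p D (fun s => f (insert e s)) :=
      Ex_mono hp fun s _ => hf _ _ (subset_insert _ _)
    have h4 := mul_le_mul_of_nonneg_left h2 ((hp e).1.trans (hp' e).1)
    have h5 := mul_le_mul_of_nonneg_left h1 (sub_nonneg.2 (hp' e).2)
    have h6 := mul_nonneg (sub_nonneg.2 (hp' e).1) (sub_nonneg.2 h3)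
    linarith

variable {V : Type} [Fintype V] [DecidableEq V] {p : Sym2 V → ℝ}

theorem big_of {K : ℕ} {t : ℝ} (ht : ∀ m : ℕ, t ≤ m ↔ K ≤ m) {ω : Finset (Sym2 V)}
    (h1 : ∃ x, K ≤ (cl ω x).card)
    (h2 : ∀ x, K ≤ (cl ω x).card → ∃ a b c, Re ω x a ∧ s(a, b) ∈ ω ∧ s(b, c) ∈ ω ∧ s(c, a) ∈ ω ∧
      a ≠ b ∧ b ≠ c ∧ c ≠ a) : BigTriangle t (SimpleGraph.fromEdgeSet (ω : Set (Sym2 V))) := by
  constructor
  · obtain ⟨x, hx⟩ := h1
    exact ⟨SimpleGraph.connectedComponentMk _ x, by rw [supp_ncard, ht]; exact hx⟩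
  · intro C hC
    induction C using SimpleGraph.ConnectedComponent.ind with
    | _ x =>
    rw [supp_ncard, ht] at hC
    obtain ⟨a, b, c, ha, hab, hbc, hca, n1, n2, n3⟩ := h2 x hC
    refine ⟨a, b, c, ?_, (SimpleGraph.fromEdgeSet_adj _).2 ⟨by simpa using hab, n1⟩,
      (SimpleGraph.fromEdgeSet_adj _).2 ⟨by simpa using hbc, n2⟩,
      (SimpleGraph.fromEdgeSet_adj _).2 ⟨by simpa using hca, n3⟩⟩
    rw [SimpleGraph.ConnectedComponent.mem_supp_iff, SimpleGraph.ConnectedComponent.eq,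
      reach_iff]
    exact ha.symm

open Classical in
theorem abstract_bound2 {p' : Sym2 V → ℝ} (hp' : ∀ e, p e ≤ p' e ∧ p' e < 1) {t : ℝ} (hp : ∀ e, 0 ≤ p e ∧ p e ≤ 1 / 10) (hdiag : ∀ x, p s(x, x) = 0)
    {s ε s' τ μ : ℝ} (hs0 : 0 < s) (hs : s ≤ 1 / 100) (hε0 : 0 ≤ ε) (hε : ε ≤ s) {K K₂ k : ℕ}
    (ht : ∀ m : ℕ, t ≤ m ↔ K ≤ m)
    (hK : 1 ≤ K) (hs0' : 0 < s') (hs' : s' ≤ 1 / 100)
    (hdeg : ∀ z, 1 - ε ≤ ∑ y, p s(z, y) ∧ ∑ y, p s(z, y) ≤ 1 + s' / 10)
    (h1 : ∀ S : Finset V, S.card ≤ K → ∀ y, dd p S y ≤ 1 / 4)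
    (h2 : ∀ S : Finset V, S.card ≤ K → ∀ z, ∑ y, p s(z, y) * dd p S y ≤ ε)
    (hK₂ : 1 ≤ s' ^ 2 / 10 * (K₂ - 1)) (hμ0 : 0 < μ)
    (hμ : 2 * μ ≤ Fintype.card V * (exp (-(26000 * s ^ 2 * K)) * (s ^ 2 / 64) - 4 * s'))
    {B H : Type} [Fintype H] [Nonempty H] (r : V → B) (pos : V → H) (a b : V → V)
    (hra : ∀ y, r (a y) = r y) (hrb : ∀ y, r (b y) = r y)
    (hinj : ∀ y y', r y = r y' → pos y = pos y' → y = y')
    (hne : ∀ y, y ≠ a y ∧ a y ≠ b y ∧ b y ≠ y) (hτ0 : 0 ≤ τ)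
    (hτ : ∀ y y', y ≠ y' → r y = r y' → τ ≤ p s(y, y')) (hk : Fintype.card H * k ≤ K)
    {D : Finset (Sym2 V)} (hD : ∀ a b, a ≠ b → s(a, b) ∈ D) :
    1 - ((2 * K₂) ^ 2 * (2 * Fintype.card V) / μ ^ 2 +
        Fintype.card V * (Fintype.card H * exp (-(τ ^ 3 * k)))) ≤
      Ex p' D (fun ω => if BigTriangle t (SimpleGraph.fromEdgeSet (ω : Set (Sym2 V))) then 1
        else 0) := by
  have hq1 : ∀ e, 0 ≤ p' e ∧ p' e ≤ 1 := fun e => ⟨(hp e).1.trans (hp' e).1, (hp' e).2.le⟩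
  have hp0 : ∀ e, 0 ≤ p e := fun e => (hp e).1
  have hp1 : ∀ e, 0 ≤ p e ∧ p e ≤ 1 := fun e => ⟨(hp e).1, by linarith [(hp e).2]⟩
  have hdeg2 : ∀ z, 1 - ε ≤ ∑ y, p s(z, y) ∧ ∑ y, p s(z, y) ≤ 2 := fun z =>
    ⟨(hdeg z).1, by linarith [(hdeg z).2]⟩
  -- the mean number of vertices in clusters of intermediate size
  have e1 : 2 * μ ≤ Ex p D (fun ω => ((mid K K₂ ω).card : ℝ)) := by
    have a1 : Ex p D (fun ω => ∑ x : V, ((if K ≤ (cl ω x).card then 1 else 0) -
        (if K₂ ≤ (cl ω x).card then 1 else 0))) ≤ Ex p D (fun ω => ((mid K K₂ ω).card : ℝ)) := by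
      refine Ex_mono hp1 fun ω _ => ?_
      unfold mid
      rw [card_filter]
      push_cast
      refine sum_le_sum fun x _ => ?_
      by_cases b1 : K ≤ (cl ω x).card <;> by_cases b2 : K₂ ≤ (cl ω x).card <;>
        simp [b1, b2, not_lt.2, not_le.1]
    rw [Ex_sum] at a1
    refine hμ.trans (le_trans ?_ a1)
    rw [← nsmul_eq_mul, ← card_univ, ← sum_const]
    refine sum_le_sum fun x _ => ?_
    rw [Ex_sub]
    linarith [pi_lower hp hdiag hs0 hs hε0 hε hK hdeg2 h1 h2 hD x,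
      pi_upper hp hs0' hs' (fun z => (hdeg z).2) hK₂ D x]
  have e2 := Ex_cheb (D := D) hp1 hμ0 (mid_lip K K₂) e1
  have e3 : (2 * (K₂ : ℝ)) ^ 2 * (∑ e ∈ D, p e) / μ ^ 2 ≤
      (2 * K₂) ^ 2 * (2 * Fintype.card V) / μ ^ 2 :=
    div_le_div_of_nonneg_right (mul_le_mul_of_nonneg_left
      (sum_p_le hp0 (fun z => (hdeg2 z).2) D) (by positivity)) (by positivity)
  -- triples
  let T : ∀ h : H, {y // pos y = h} → Finset V := fun h y => {y.1, a y.1, b y.1}
  let E : ∀ h : H, {y // pos y = h} → Finset (Sym2 V) := fun h y =>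
    {s(y.1, a y.1), s(a y.1, b y.1), s(b y.1, y.1)}
  have e4 : ∀ (x : V) (h : H), Ex p' D (fun ω => if k ≤ (touch (T h) x ω).card ∧
      ∀ β ∈ touch (T h) x ω, ¬ E h β ⊆ ω then 1 else 0) ≤ exp (-(τ ^ 3 * k)) := by
    intro x h
    refine tri_bound hq1 (T h) (E h) ?_ ?_ ?_ (by positivity) ?_ x k
    · intro β e he
      simp only [E, mem_insert, mem_singleton] at he
      rcases he with rfl | rfl | rfl
      · exact hD _ _ (hne _).1
      · exact hD _ _ (hne _).2.1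
      · exact hD _ _ (hne _).2.2
    · intro β u v he
      simp only [E, mem_insert, mem_singleton, Sym2.eq_iff] at he
      simp only [T, mem_insert, mem_singleton]
      tauto
    · intro β β' v h1 h2
      have c : ∀ γ : {y // pos y = h}, v ∈ T h γ → r v = r γ.1 := by
        intro γ hγ
        simp only [T, mem_insert, mem_singleton] at hγ
        rcases hγ with rfl | rfl | rfl
        · rfl
        · exact hra _
        · exact hrb _
      exact Subtype.ext (hinj _ _ ((c β h1).symm.trans (c β' h2)) (β.2.trans β'.2.symm))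
    · intro β
      obtain ⟨n1, n2, n3⟩ := hne β.1
      have c1 : s(β.1, a β.1) ∉ ({s(a β.1, b β.1), s(b β.1, β.1)} : Finset (Sym2 V)) := by
        simp only [mem_insert, mem_singleton, Sym2.eq_iff]
        rintro ((h | h) | (h | h))
        · exact n1 h.1
        · exact n3 h.1.symm
        · exact n3 h.1.symm
        · exact n2 h.2
      have c2 : s(a β.1, b β.1) ∉ ({s(b β.1, β.1)} : Finset (Sym2 V)) := by
        simp only [mem_singleton, Sym2.eq_iff]
        rintro (h | h)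
        · exact n2 h.1
        · exact n1 h.1.symm
      simp only [E]
      rw [prod_insert c1, prod_insert c2, prod_singleton]
      have d1 := (hτ _ _ n1 (hra _).symm).trans (hp' _).1
      have d2 := (hτ _ _ n2 ((hra _).trans (hrb _).symm)).trans (hp' _).1
      have d3 := (hτ _ _ n3 (hrb _)).trans (hp' _).1
      constructor
      · calc τ ^ 3 = τ * (τ * τ) := by ring
          _ ≤ _ := mul_le_mul d1 (mul_le_mul d2 d3 hτ0 (hq1 _).1) (by positivity) (hq1 _).1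
      · have f1 := mul_le_one₀ (hq1 s(a β.1, b β.1)).2 (hq1 s(b β.1, β.1)).1 (hq1 _).2
        have f2 := mul_le_mul_of_nonneg_left f1 (hq1 s(β.1, a β.1)).1
        linarith [(hp' s(β.1, a β.1)).2]
  have e5 : Ex p' D (fun ω => ∑ x : V, ∑ h : H, if k ≤ (touch (T h) x ω).card ∧
      ∀ β ∈ touch (T h) x ω, ¬ E h β ⊆ ω then 1 else 0) ≤
      Fintype.card V * (Fintype.card H * exp (-(τ ^ 3 * k))) := by
    rw [Ex_sum, ← nsmul_eq_mul, ← card_univ, ← sum_const]
    refine sum_le_sum fun x _ => ?_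
    rw [Ex_sum, ← nsmul_eq_mul, ← card_univ, ← sum_const]
    exact sum_le_sum fun h _ => e4 x h
  have e7 : Ex p D (fun ω => 1 - (if ((mid K K₂ ω).card : ℝ) ≤ μ then 1 else 0)) ≤
      Ex p' D (fun ω => if ∃ x, K ≤ (cl ω x).card then 1 else 0) := by
    refine le_trans (Ex_mono hp1 fun ω _ => ?_) (Ex_mono_p hp1 (fun e => ⟨(hp' e).1, (hq1 e).2⟩)
      fun s t hst => ?_)
    · by_cases g1 : ((mid K K₂ ω).card : ℝ) ≤ μ
      · rw [if_pos g1]
        split_ifs <;> norm_num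
      · have g2 : 0 < (mid K K₂ ω).card := by
          have : (0 : ℝ) < (mid K K₂ ω).card := hμ0.trans (not_le.1 g1)
          exact_mod_cast this
        obtain ⟨x, hx⟩ := card_pos.1 g2
        rw [if_neg g1, if_pos ⟨x, (mem_mid.1 hx).1⟩]
        norm_num
    · by_cases g1 : ∃ x, K ≤ (cl s x).card
      · obtain ⟨x, hx⟩ := g1
        rw [if_pos ⟨x, hx⟩, if_pos ⟨x, hx.trans (card_le_card fun v hv =>
          mem_cl.2 ((mem_cl.1 hv).mono hst))⟩]
      · rw [if_neg g1]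
        split_ifs <;> norm_num
  have e6 : Ex p' D (fun ω => (if ∃ x, K ≤ (cl ω x).card then 1 else 0) -
      ∑ x : V, ∑ h : H, if k ≤ (touch (T h) x ω).card ∧
      ∀ β ∈ touch (T h) x ω, ¬ E h β ⊆ ω then 1 else 0) ≤
      Ex p' D (fun ω => if BigTriangle t (SimpleGraph.fromEdgeSet (ω : Set (Sym2 V))) then 1
        else 0) := by
    refine Ex_mono hq1 fun ω _ => ?_
    have g0 : ∀ (x : V) (h : H), (0 : ℝ) ≤ if k ≤ (touch (T h) x ω).card ∧
      ∀ β ∈ touch (T h) x ω, ¬ E h β ⊆ ω then 1 else 0 := fun x h => by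
      split_ifs <;> norm_num
    have g1 : (0 : ℝ) ≤ ∑ x : V, ∑ h : H, if k ≤ (touch (T h) x ω).card ∧
      ∀ β ∈ touch (T h) x ω, ¬ E h β ⊆ ω then 1 else 0 :=
      sum_nonneg fun x _ => sum_nonneg fun h _ => g0 x h
    have g2 : (if ∃ x, K ≤ (cl ω x).card then 1 else 0) ≤ (1 : ℝ) := by
      split_ifs <;> norm_num
    by_cases g3 : BigTriangle t (SimpleGraph.fromEdgeSet (ω : Set (Sym2 V)))
    · rw [if_pos g3]
      linarith
    rw [if_neg g3]
    by_cases g5 : ∃ x, K ≤ (cl ω x).card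
    swap
    · rw [if_neg g5]
      linarith
    have g6 : ∃ x h, k ≤ (touch (T h) x ω).card ∧ ∀ β ∈ touch (T h) x ω, ¬ E h β ⊆ ω := by
      by_contra hcon
      apply g3
      refine big_of ht g5 fun x hx => ?_
      obtain ⟨h, -, hh⟩ := exists_le_card_fiber_of_mul_le_card_of_maps_to (s := cl ω x)
        (t := (univ : Finset H)) (f := pos) (n := k) (fun _ _ => mem_univ _) univ_nonempty
        (hk.trans hx)
      have g7 : k ≤ (touch (T h) x ω).card := by
        refine hh.trans ?_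
        rw [← card_map (Function.Embedding.subtype _) (s := touch (T h) x ω)]
        refine card_le_card fun y hy => ?_
        obtain ⟨y1, y2⟩ := mem_filter.1 hy
        refine mem_map.2 ⟨⟨y, y2⟩, ?_, rfl⟩
        simp only [touch, mem_filter, mem_univ, true_and]
        exact ⟨y, by simp [T], mem_cl.1 y1⟩
      have g8 : ∃ β ∈ touch (T h) x ω, E h β ⊆ ω := by
        by_contra hc
        exact hcon ⟨x, h, g7, fun β hβ h' => hc ⟨β, hβ, h'⟩⟩
      obtain ⟨β, hβ, hE⟩ := g8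
      have m1 : s(β.1, a β.1) ∈ ω := hE (by simp [E])
      have m2 : s(a β.1, b β.1) ∈ ω := hE (by simp [E])
      have m3 : s(b β.1, β.1) ∈ ω := hE (by simp [E])
      simp only [touch, mem_filter, mem_univ, true_and] at hβ
      obtain ⟨v, hv, hxv⟩ := hβ
      refine ⟨β.1, a β.1, b β.1, ?_, m1, m2, m3, hne _⟩
      simp only [T, mem_insert, mem_singleton] at hv
      rcases hv with rfl | rfl | rfl
      · exact hxv
      · exact hxv.tail (by rwa [Sym2.eq_swap])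
      · exact hxv.tail m3
    obtain ⟨x, h, g7⟩ := g6
    have g8 : (1 : ℝ) ≤ ∑ x : V, ∑ h : H, if k ≤ (touch (T h) x ω).card ∧
        ∀ β ∈ touch (T h) x ω, ¬ E h β ⊆ ω then 1 else 0 := by
      refine le_trans ?_ (single_le_sum (fun x _ => sum_nonneg fun h _ => g0 x h) (mem_univ x))
      refine le_trans ?_ (single_le_sum (fun h _ => g0 x h) (mem_univ h))
      rw [if_pos g7]
    linarith
  rw [Ex_sub] at e6
  rw [Ex_sub, Ex_const] at e7
  linarith

end Pool.Agent.H102Z.Hier
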