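import Mathlib

set_option autoImplicit false

namespace Pool.Agent.H102Z.Hier

open Finset

variable {ι : Type} [DecidableEq ι]

/-- expectation for the random subset of `D` containing each `e` independently with
probability `p e` -/
noncomputable def Ex (p : ι → ℝ) (D : Finset ι) (f : Finset ι → ℝ) : ℝ :=
  ∑ s ∈ D.powerset, (∏ e ∈ s, p e) * (∏ e ∈ D \ s, (1 - p e)) * f s

variable {p : ι → ℝ} {D : Finset ι} {f g : Finset ι → ℝ}

theorem Ex_empty : Ex p ∅ f = f ∅ := by simp [Ex]

theorem Ex_insert {e : ι} (he : e ∉ D) :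
    Ex p (insert e D) f = p e * Ex p D (fun s => f (insert e s)) + (1 - p e) * Ex p D f := by
  unfold Ex
  rw [sum_powerset_insert he, add_comm, mul_sum, mul_sum]
  congr 1
  · refine sum_congr rfl fun s hs => ?_
    have hs' : s ⊆ D := mem_powerset.1 hs
    have h1 : e ∉ s := fun h => he (hs' h)
    have h2 : insert e D \ insert e s = D \ s := by
      ext a
      simp only [mem_sdiff, mem_insert]
      constructor
      · rintro ⟨h | h, h'⟩
        · exact absurd (Or.inl h) h'
        · exact ⟨h, fun h'' => h' (Or.inr h'')⟩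
      · rintro ⟨h, h'⟩
        refine ⟨Or.inr h, ?_⟩
        rintro (h'' | h'')
        · exact he (h'' ▸ h)
        · exact h' h''
    rw [prod_insert h1, h2]
    ring
  · refine sum_congr rfl fun s hs => ?_
    have hs' : s ⊆ D := mem_powerset.1 hs
    have h1 : e ∉ s := fun h => he (hs' h)
    have h2 : insert e D \ s = insert e (D \ s) := insert_sdiff_of_notMem D h1
    have h3 : e ∉ D \ s := fun h => he (mem_sdiff.1 h).1
    rw [h2, prod_insert h3]
    ring

theorem Ex_const (c : ℝ) : Ex p D (fun _ => c) = c := by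
  induction D using Finset.induction_on with
  | empty => exact Ex_empty
  | insert e D he ih => rw [Ex_insert he, ih]; ring

theorem Ex_congr (h : ∀ s, s ⊆ D → f s = g s) : Ex p D f = Ex p D g :=
  sum_congr rfl fun s hs => by rw [h s (mem_powerset.1 hs)]

theorem Ex_mono (hp : ∀ e, 0 ≤ p e ∧ p e ≤ 1) (h : ∀ s, s ⊆ D → f s ≤ g s) :
    Ex p D f ≤ Ex p D g := by
  refine sum_le_sum fun s hs => mul_le_mul_of_nonneg_left (h s (mem_powerset.1 hs)) ?_
  exact mul_nonneg (prod_nonneg fun e _ => (hp e).1) (prod_nonneg fun e _ => sub_nonneg.2 (hp e).2)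

theorem Ex_nonneg (hp : ∀ e, 0 ≤ p e ∧ p e ≤ 1) (h : ∀ s, s ⊆ D → 0 ≤ f s) : 0 ≤ Ex p D f := by
  have := Ex_mono (D := D) (f := fun _ => 0) hp h
  rwa [Ex_const] at this

theorem Ex_add : Ex p D (fun s => f s + g s) = Ex p D f + Ex p D g := by
  unfold Ex
  rw [← sum_add_distrib]
  exact sum_congr rfl fun s _ => by ring

theorem Ex_sub : Ex p D (fun s => f s - g s) = Ex p D f - Ex p D g := by
  unfold Ex
  rw [← sum_sub_distrib]
  exact sum_congr rfl fun s _ => by ring

theorem Ex_mul (c : ℝ) : Ex p D (fun s => c * f s) = c * Ex p D f := by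
  unfold Ex
  rw [mul_sum]
  exact sum_congr rfl fun s _ => by ring

theorem Ex_sum {κ : Type} (I : Finset κ) (F : κ → Finset ι → ℝ) :
    Ex p D (fun s => ∑ k ∈ I, F k s) = ∑ k ∈ I, Ex p D (F k) := by
  unfold Ex
  rw [sum_comm]
  exact sum_congr rfl fun s _ => by rw [mul_sum]

/-- variance bound for functions with bounded differences -/
theorem Ex_var (hp : ∀ e, 0 ≤ p e ∧ p e ≤ 1) {c : ℝ}
    (h : ∀ e s, |f (insert e s) - f s| ≤ c) :
    Ex p D (fun s => f s ^ 2) ≤ Ex p D f ^ 2 + c ^ 2 * ∑ e ∈ D, p e := by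
  induction D using Finset.induction_on generalizing f with
  | empty => simp [Ex_empty]
  | insert e D he ih =>
    have h1 := ih h
    have h2 := ih (f := fun s => f (insert e s)) (fun e' s => by
      rw [insert_comm]; exact h e' _)
    rw [Ex_insert he, Ex_insert he, sum_insert he]
    have h3 : Ex p D (fun s => f (insert e s)) - Ex p D f ≤ c := by
      rw [← Ex_sub, ← Ex_const (p := p) (D := D) c]
      exact Ex_mono hp fun s _ => (abs_le.1 (h e s)).2
    have h4 : -c ≤ Ex p D (fun s => f (insert e s)) - Ex p D f := by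
      rw [← Ex_sub, ← Ex_const (p := p) (D := D) (-c)]
      exact Ex_mono hp fun s _ => (abs_le.1 (h e s)).1
    have h5 : (Ex p D (fun s => f (insert e s)) - Ex p D f) ^ 2 ≤ c ^ 2 := sq_le_sq' h4 h3
    obtain ⟨h6, h7⟩ := hp e
    set A := Ex p D (fun s => f (insert e s))
    set B := Ex p D f
    have h8 : p e * (1 - p e) * (A - B) ^ 2 ≤ p e * c ^ 2 := by
      have : (1 - p e) * (A - B) ^ 2 ≤ c ^ 2 := by nlinarith [sq_nonneg (A - B)]
      nlinarith
    have h9 := mul_le_mul_of_nonneg_left h2 h6
    have h10 := mul_le_mul_of_nonneg_left h1 (sub_nonneg.2 h7)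
    nlinarith

open Classical in
/-- Chebyshev: the lower tail -/
theorem Ex_cheb (hp : ∀ e, 0 ≤ p e ∧ p e ≤ 1) {c μ : ℝ} (hμ : 0 < μ)
    (h : ∀ e s, |f (insert e s) - f s| ≤ c) (hE : 2 * μ ≤ Ex p D f) :
    Ex p D (fun s => if f s ≤ μ then 1 else 0) ≤ c ^ 2 * (∑ e ∈ D, p e) / μ ^ 2 := by
  have h1 := Ex_var (D := D) hp h
  set m := Ex p D f
  have h2 : Ex p D (fun s => if f s ≤ μ then 1 else 0) ≤
      Ex p D (fun s => (1 / μ ^ 2) * (f s ^ 2 + ((-2 * m) * f s + m ^ 2))) := by
    refine Ex_mono hp fun s _ => ?_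
    have e : f s ^ 2 + ((-2 * m) * f s + m ^ 2) = (m - f s) ^ 2 := by ring
    rw [e]
    split_ifs with hs
    · rw [one_div, inv_mul_eq_div, one_le_div (by positivity)]
      exact pow_le_pow_left₀ hμ.le (by linarith) 2
    · positivity
  rw [Ex_mul, Ex_add, Ex_add, Ex_mul, Ex_const] at h2
  refine h2.trans ?_
  rw [one_div, inv_mul_eq_div]
  refine div_le_div_of_nonneg_right ?_ (by positivity)
  nlinarith

/-- independence -/
theorem Ex_indep (J : Finset ι) (hf : ∀ e ∈ J, ∀ s, f (insert e s) = f s)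
    (hg : ∀ e, e ∉ J → ∀ s, g (insert e s) = g s) :
    Ex p D (fun s => f s * g s) = Ex p D f * Ex p D g := by
  induction D using Finset.induction_on generalizing f g with
  | empty => simp [Ex_empty]
  | insert e D he ih =>
    rw [Ex_insert he, Ex_insert he, Ex_insert he, ih hf hg,
      ih (f := fun s => f (insert e s)) (g := fun s => g (insert e s))
        (fun e' he' s => by rw [insert_comm]; exact hf e' he' _)
        (fun e' he' s => by rw [insert_comm]; exact hg e' he' _)]
    by_cases h : e ∈ J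
    · simp only [hf e h]
      ring
    · simp only [hg e h]
      ring

theorem Ex_subset {T : Finset ι} (hT : T ⊆ D) :
    Ex p D (fun s => if T ⊆ s then 1 else 0) = ∏ e ∈ T, p e := by
  induction D using Finset.induction_on generalizing T with
  | empty =>
    rw [subset_empty.1 hT]
    simp [Ex_empty]
  | insert e D he ih =>
    rw [Ex_insert he]
    have h1 : T.erase e ⊆ D := by
      intro a ha
      rcases mem_insert.1 (hT (mem_of_mem_erase ha)) with h | h
      · exact absurd h (ne_of_mem_erase ha)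
      · exact h
    have h2 : Ex p D (fun s => if T ⊆ insert e s then 1 else 0) = ∏ e ∈ T.erase e, p e := by
      rw [← ih h1]
      refine Ex_congr fun s _ => ?_
      simp only [subset_insert_iff]
    rw [h2]
    by_cases h : e ∈ T
    · have h3 : Ex p D (fun s => if T ⊆ s then 1 else 0) = 0 := by
        refine (Ex_congr fun s hs => ?_).trans (Ex_const (p := p) (D := D) 0)
        rw [if_neg fun h' => he (hs (h' h))]
      rw [h3, mul_prod_erase T p h]
      ring
    · rw [erase_eq_of_notMem h] at h1 ⊢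
      rw [ih h1]
      ring

end Pool.Agent.H102Z.Hier
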