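import Mathlib

set_option autoImplicit false

namespace Pool.Agent.H102Z.Hier

open Real

theorem exp_neg_le (y : ℝ) (hy : 0 ≤ y) : exp (-y) ≤ 1 - y + y ^ 2 := by
  have h1 : 1 + y ≤ exp y := by linarith [add_one_le_exp y]
  rw [exp_neg, inv_le_comm₀ (exp_pos y) (by nlinarith [sq_nonneg (y - 1 / 2)])]
  refine le_trans ?_ h1
  rw [inv_le_comm₀ (by nlinarith [sq_nonneg (y - 1 / 2)]) (by linarith), inv_le_iff_one_le_mul₀
    (by linarith)]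
  nlinarith [pow_nonneg hy 3]

theorem exp_two_le (y : ℝ) (hy : 0 ≤ y) (hy2 : y ≤ 1 / 2) : exp (-(2 * y)) ≤ 1 - y := by
  have h1 : 1 + 2 * y ≤ exp (2 * y) := by linarith [add_one_le_exp (2 * y)]
  rw [exp_neg, inv_le_comm₀ (exp_pos _) (by linarith)]
  refine le_trans ?_ h1
  rw [inv_le_comm₀ (by linarith) (by linarith), inv_le_iff_one_le_mul₀ (by linarith)]
  nlinarith

/-- the potential -/
noncomputable def psi (s w : ℝ) : ℝ := (1 - exp (-(s * w))) ^ 2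

theorem psi_le_one {s w : ℝ} (hs : 0 ≤ s) (hw : 0 ≤ w) : psi s w ≤ 1 := by
  unfold psi
  have h1 : exp (-(s * w)) ≤ 1 := exp_le_one_iff.2 (by nlinarith [mul_nonneg hs hw])
  have h2 := exp_pos (-(s * w))
  nlinarith

theorem psi_nonneg (s w : ℝ) : 0 ≤ psi s w := sq_nonneg _

theorem psi_ge {s w : ℝ} (hs : 0 ≤ s) (hs1 : s ≤ 1) (hw : 1 / 4 ≤ w) : s ^ 2 / 64 ≤ psi s w := by
  unfold psi
  have h1 : exp (-(s * w)) ≤ exp (-(s / 4)) := exp_le_exp.2 (by nlinarith)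
  have h2 := exp_neg_le (s / 4) (by linarith)
  have h3 : s / 8 ≤ 1 - exp (-(s * w)) := by nlinarith
  calc s ^ 2 / 64 = (s / 8) ^ 2 := by ring
    _ ≤ _ := pow_le_pow_left₀ (by linarith) h3 2

theorem alg_a {p s h ε A t : ℝ} (hp0 : 0 ≤ p) (hp : p ≤ 1 / 2) (hs0 : 0 < s)
    (hh0 : 1 / 2 ≤ h) (hh1 : h ≤ 1) (hε : ε ≤ s) (hA1 : 1 ≤ A) (ht0 : 0 ≤ t)
    (hA2 : A ≤ 1 + s * p * h + (s * p * h) ^ 2) (a3 : s * (h - 5 * ε) - s ^ 2 ≤ t) :
    A * (1 - p * t) - 1 ≤ 7 * p * s ^ 2 := by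
  have a0 : 0 ≤ (A - 1) * (p * t) := mul_nonneg (by linarith) (mul_nonneg hp0 ht0)
  have a1 : A * (1 - p * t) ≤ A - p * t := by linarith
  have a2 : (s * p * h) ^ 2 ≤ p * s ^ 2 / 2 := by
    have b0 : p * h ≤ p := mul_le_of_le_one_right hp0 hh1
    have b2 : (p * h) ^ 2 ≤ p ^ 2 := pow_le_pow_left₀ (by positivity) b0 2
    have b1 : (p * h) ^ 2 ≤ p / 2 := by nlinarith
    calc (s * p * h) ^ 2 = s ^ 2 * (p * h) ^ 2 := by ring
      _ ≤ s ^ 2 * (p / 2) := mul_le_mul_of_nonneg_left b1 (sq_nonneg s)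
      _ = _ := by ring
  have a4 : p * (s * (h - 5 * ε) - s ^ 2) ≤ p * t := mul_le_mul_of_nonneg_left a3 hp0
  have a5 : p * (s * ε) ≤ p * (s * s) :=
    mul_le_mul_of_nonneg_left (mul_le_mul_of_nonneg_left hε hs0.le) hp0
  have a7 : 0 ≤ p * s ^ 2 := by positivity
  linarith

theorem alg_b {p s A t X : ℝ} (hp0 : 0 ≤ p) (hp : p ≤ 1 / 2) (hs0 : 0 < s)
    (hA1 : 1 ≤ A) (ht : s / 8 ≤ t) (hX0 : 0 < X) (hX1 : X ≤ 1)
    (ha : A * (1 - p * t) - 1 ≤ 7 * p * s ^ 2) :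
    (1 - 6272 * p * s ^ 2) * (1 - X) ^ 2 ≤
      p * (1 - X * A * (1 - t)) ^ 2 + (1 - p) * (1 - X * A) ^ 2 := by
  have hV : p * (s ^ 2 / 128) ≤ p * ((1 - p) * t ^ 2) := by
    have b1 : (s / 8) ^ 2 ≤ t ^ 2 := pow_le_pow_left₀ (by positivity) ht 2
    have b3 : 1 / 2 * t ^ 2 ≤ (1 - p) * t ^ 2 :=
      mul_le_mul_of_nonneg_right (by linarith) (sq_nonneg t)
    exact mul_le_mul_of_nonneg_left (by linarith) hp0
  have h4 : p * (1 - X * A * (1 - t)) ^ 2 + (1 - p) * (1 - X * A) ^ 2 =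
      (1 - X - X * (A * (1 - p * t) - 1)) ^ 2 + (X * A) ^ 2 * (p * ((1 - p) * t ^ 2)) := by
    ring
  have h5 : X ^ 2 * (p * (s ^ 2 / 128)) ≤ (X * A) ^ 2 * (p * ((1 - p) * t ^ 2)) :=
    mul_le_mul (pow_le_pow_left₀ hX0.le (le_mul_of_one_le_right hX0.le hA1) 2) hV (by positivity)
      (by positivity)
  have c1 : 0 ≤ (1 - X) * X := mul_nonneg (by linarith) hX0.le
  have c2 := mul_le_mul_of_nonneg_left ha c1
  have c3 := sq_nonneg (X * (A * (1 - p * t) - 1))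
  have h7 : 0 ≤ p * s ^ 2 / 128 * (X - 896 * (1 - X)) ^ 2 := by positivity
  rw [h4]
  linarith

theorem step_lower {p s h ε wc wo : ℝ} (hp0 : 0 ≤ p) (hp : p ≤ 1 / 2) (hs0 : 0 < s)
    (hs : s ≤ 1 / 100) (hh0 : 1 / 2 ≤ h) (hh1 : h ≤ 1) (hε0 : 0 ≤ ε) (hε : ε ≤ s) (hwc : 0 ≤ wc)
    (hwo : wc + h - 5 * ε ≤ wo) :
    exp (-(13000 * s ^ 2 * p)) * psi s (wc + p * h) ≤ p * psi s wo + (1 - p) * psi s wc := by
  have g1 : 1 / 4 ≤ h - 5 * ε := by linarith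
  have g2 : h - 5 * ε ≤ 1 := by linarith
  have hsg : 0 ≤ s * (h - 5 * ε) := by positivity
  have hsg1 : s * (h - 5 * ε) ≤ s := mul_le_of_le_one_right hs0.le g2
  have hsg2 : s * (1 / 4) ≤ s * (h - 5 * ε) := mul_le_mul_of_nonneg_left g1 hs0.le
  have hsph0 : 0 ≤ s * p * h := by positivity
  have hsph : s * p * h ≤ 1 := by
    have b0 : p * h ≤ 1 := mul_le_one₀ (by linarith) (by linarith) hh1
    have b1 : s * (p * h) ≤ 1 := mul_le_one₀ (by linarith) (by positivity) b0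
    linarith
  have hwo' : s * (wc + h - 5 * ε) ≤ s * wo := mul_le_mul_of_nonneg_left hwo hs0.le
  obtain ⟨X, hX⟩ : ∃ X, X = exp (-(s * (wc + p * h))) := ⟨_, rfl⟩
  obtain ⟨A, hA⟩ : ∃ A, A = exp (s * p * h) := ⟨_, rfl⟩
  obtain ⟨u, hu⟩ : ∃ u, u = exp (-(s * (h - 5 * ε))) := ⟨_, rfl⟩
  have hXc : exp (-(s * wc)) = X * A := by
    rw [hX, hA, ← exp_add]; congr 1; ring
  have hX0 : 0 < X := hX ▸ exp_pos _
  have hA1 : 1 ≤ A := hA ▸ one_le_exp hsph0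
  have hXA : X * A ≤ 1 := by
    rw [← hXc]; exact exp_le_one_iff.2 (by linarith [mul_nonneg hs0.le hwc])
  have hX1 : X ≤ 1 := (le_mul_of_one_le_right hX0.le hA1).trans hXA
  have hu0 : 0 < u := hu ▸ exp_pos _
  have hu1 : u ≤ 1 - s * (h - 5 * ε) + (s * (h - 5 * ε)) ^ 2 := hu ▸ exp_neg_le _ hsg
  have hXo : exp (-(s * wo)) ≤ X * A * u := by
    rw [← hXc, hu, ← exp_add]
    exact exp_le_exp.2 (by linarith)
  have hq : (s * (h - 5 * ε)) ^ 2 ≤ s ^ 2 := pow_le_pow_left₀ hsg hsg1 2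
  have hq2 : s * s ≤ s * (1 / 100) := mul_le_mul_of_nonneg_left hs hs0.le
  have ht : s / 8 ≤ 1 - u := by linarith
  have hu2 : u ≤ 1 := by linarith
  have h1 : (1 - X * A * u) ^ 2 ≤ psi s wo := by
    unfold psi
    refine pow_le_pow_left₀ ?_ (by linarith) 2
    have : X * A * u ≤ 1 := mul_le_one₀ hXA hu0.le hu2
    linarith
  have h2 : psi s wc = (1 - X * A) ^ 2 := by unfold psi; rw [hXc]
  have h3 : psi s (wc + p * h) = (1 - X) ^ 2 := by rw [hX]; rfl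
  have hA2 : A ≤ 1 + s * p * h + (s * p * h) ^ 2 := by
    have := abs_exp_sub_one_sub_id_le (x := s * p * h) (by rw [abs_of_nonneg hsph0]; exact hsph)
    linarith [(abs_le.1 this).2]
  have ha := alg_a (t := 1 - u) hp0 hp hs0 hh0 hh1 hε hA1 (by linarith) hA2 (by linarith)
  have h8 := alg_b hp0 hp hs0 hA1 ht hX0 hX1 ha
  have h9 : exp (-(13000 * s ^ 2 * p)) ≤ 1 - 6272 * p * s ^ 2 := by
    have c1 : s ^ 2 ≤ 1 / 10000 := by linarith
    have c2 : 0 ≤ p * s ^ 2 := by positivity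
    have c3 : p * s ^ 2 ≤ 1 / 2 * (1 / 10000) := mul_le_mul hp c1 (sq_nonneg s) (by norm_num)
    exact le_trans (exp_le_exp.2 (by linarith))
      (exp_two_le (6272 * p * s ^ 2) (by positivity) (by linarith))
  rw [h2, h3]
  rw [sub_sub_cancel] at h8
  calc _ ≤ (1 - 6272 * p * s ^ 2) * (1 - X) ^ 2 := mul_le_mul_of_nonneg_right h9 (sq_nonneg _)
    _ ≤ _ := h8
    _ ≤ _ := by linarith [mul_le_mul_of_nonneg_left h1 hp0]

theorem step_upper {p s : ℝ} (hp0 : 0 ≤ p) (hp : p ≤ 1 / 10) (hs0 : 0 < s) (hs : s ≤ 1 / 100) :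
    exp (-(s * p)) ≤ p * exp (-(s ^ 2 / 10 + s * (1 + s / 10))) + (1 - p) := by
  set v := s ^ 2 / 10 + s * (1 + s / 10) with hv
  have v0 : s ≤ v := by nlinarith
  have v1 : v ≤ 2 * s := by nlinarith
  have h1 := exp_neg_le (s * p) (by positivity)
  have h2 := Real.exp_bound (x := -v) (by rw [abs_neg, abs_of_nonneg (by linarith)]; linarith)
    (n := 3) (by norm_num)
  simp only [Finset.sum_range_succ, Finset.sum_range_zero, Nat.factorial, abs_neg,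
    abs_of_nonneg (show 0 ≤ v by linarith)] at h2
  have h3 := (abs_le.1 h2).1
  norm_num at h3
  have h4 : v ^ 3 ≤ (2 * s) ^ 3 := pow_le_pow_left₀ (by linarith) v1 3
  have h5 : s ^ 2 ≤ v ^ 2 := pow_le_pow_left₀ hs0.le v0 2
  have h6 : s ^ 3 ≤ s ^ 2 / 100 := by nlinarith [sq_nonneg s]
  have h7 : 1 - s + s ^ 2 / 10 ≤ exp (-v) := by nlinarith
  have h8 : p * (1 - s + s ^ 2 / 10) ≤ p * exp (-v) := mul_le_mul_of_nonneg_left h7 hp0
  have h9 : (s * p) ^ 2 ≤ p * (s ^ 2 / 10) := by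
    have : p ^ 2 ≤ p / 10 := by nlinarith
    calc (s * p) ^ 2 = s ^ 2 * p ^ 2 := by ring
      _ ≤ s ^ 2 * (p / 10) := mul_le_mul_of_nonneg_left this (sq_nonneg s)
      _ = _ := by ring
  nlinarith

end Pool.Agent.H102Z.Hier
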