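import Pool.Agent.H102Z.Hier.Ex
import Pool.Agent.H102Z.Hier.Num

set_option autoImplicit false

namespace Pool.Agent.H102Z.Hier

open Finset Real

variable {V : Type} [Fintype V] [DecidableEq V]

/-- reachability along the edges of `ω` -/
def Re (ω : Finset (Sym2 V)) : V → V → Prop := Relation.ReflTransGen (fun a b => s(a, b) ∈ ω)

open Classical in
/-- the vertices outside `S` reachable from `S` -/
noncomputable def out (S : Finset V) (ω : Finset (Sym2 V)) : Finset V :=
  univ.filter fun v => v ∉ S ∧ ∃ x ∈ S, Re ω x v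

theorem mem_out {S : Finset V} {ω : Finset (Sym2 V)} {v : V} :
    v ∈ out S ω ↔ v ∉ S ∧ ∃ x ∈ S, Re ω x v := by simp [out]

omit [Fintype V] [DecidableEq V] in
theorem Re.mono {ω ω' : Finset (Sym2 V)} (h : ω ⊆ ω') {a b : V} (hab : Re ω a b) : Re ω' a b := by
  induction hab with
  | refl => exact Relation.ReflTransGen.refl
  | tail _ h' ih => exact ih.tail (h h')

omit [Fintype V] [DecidableEq V] in
theorem Re.symm {ω : Finset (Sym2 V)} {a b : V} (hab : Re ω a b) : Re ω b a := by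
  induction hab with
  | refl => exact Relation.ReflTransGen.refl
  | tail _ h ih => exact Relation.ReflTransGen.head (by rwa [Sym2.eq_swap]) ih

theorem out_insert {S : Finset V} {ω : Finset (Sym2 V)} {x z : V} (hx : x ∈ S) (hz : z ∉ S) :
    (out S (insert s(x, z) ω)).card = (out (insert z S) ω).card + 1 := by
  have h1 : out S (insert s(x, z) ω) = insert z (out (insert z S) ω) := by
    ext v
    simp only [mem_insert, mem_out]
    have hxz : Re (insert s(x, z) ω) x z := Relation.ReflTransGen.single (mem_insert_self _ _)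
    constructor
    · rintro ⟨hv, y, hy, hyv⟩
      have h2 : ∃ y, (y = z ∨ y ∈ S) ∧ Re ω y v := by
        clear hv
        induction hyv with
        | refl => exact ⟨y, Or.inr hy, Relation.ReflTransGen.refl⟩
        | @tail a b _ h ih =>
          rcases mem_insert.1 h with h | h
          · rcases Sym2.eq_iff.1 h with h | h
            · exact ⟨b, Or.inl h.2, Relation.ReflTransGen.refl⟩
            · exact ⟨b, Or.inr (h.2 ▸ hx), Relation.ReflTransGen.refl⟩
          · obtain ⟨y', hy', h'⟩ := ih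
            exact ⟨y', hy', h'.tail h⟩
      by_cases hvz : v = z
      · exact Or.inl hvz
      · exact Or.inr ⟨fun h => h.elim hvz hv, h2⟩
    · rintro (rfl | ⟨hv, y, hy, hyv⟩)
      · exact ⟨hz, x, hx, hxz⟩
      · refine ⟨fun h => hv (Or.inr h), ?_⟩
        rcases hy with rfl | hy
        · exact ⟨x, hx, hxz.trans (hyv.mono (subset_insert _ _))⟩
        · exact ⟨y, hy, hyv.mono (subset_insert _ _)⟩
  rw [h1, card_insert_of_notMem]
  rw [mem_out]
  exact fun h => h.1 (mem_insert_self _ _)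

theorem out_empty {S : Finset V} {ω : Finset (Sym2 V)}
    (h : ∀ x ∈ S, ∀ z, z ∉ S → s(x, z) ∉ ω) : out S ω = ∅ := by
  ext v
  simp only [mem_out, notMem_empty, iff_false, not_and, not_exists]
  intro hv y hy hyv
  apply hv
  clear hv
  induction hyv with
  | refl => exact hy
  | @tail a b _ h' ih =>
    by_contra hb
    exact h a ih b hb h'

/-- weighted mass of the unrevealed boundary edges -/
noncomputable def W (p : Sym2 V → ℝ) (c : V → ℝ) (S : Finset V) (D : Finset (Sym2 V)) : ℝ :=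
  ∑ x ∈ S, ∑ y ∈ Sᶜ, if s(x, y) ∈ D then p s(x, y) * c y else 0

/-- mass sent from `S` to `y` -/
noncomputable def dd (p : Sym2 V → ℝ) (S : Finset V) (y : V) : ℝ := ∑ v ∈ S, p s(v, y)

variable {p : Sym2 V → ℝ}

theorem W_insert (c : V → ℝ) {S : Finset V} {D : Finset (Sym2 V)} {x z : V} (hx : x ∈ S)
    (hz : z ∉ S) (hD : s(x, z) ∉ D) :
    W p c S (insert s(x, z) D) = W p c S D + p s(x, z) * c z := by
  have h1 : p s(x, z) * c z =
      ∑ x' ∈ S, ∑ y ∈ Sᶜ, if x' = x ∧ y = z then p s(x, z) * c z else 0 := by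
    rw [sum_eq_single x, sum_eq_single z]
    · simp
    · intro b _ hb
      simp [hb]
    · intro h
      exact absurd (mem_compl.2 hz) h
    · intro b _ hb
      simp [hb]
    · intro h
      exact absurd hx h
  unfold W
  rw [h1, ← sum_add_distrib]
  refine sum_congr rfl fun x' hx' => ?_
  rw [← sum_add_distrib]
  refine sum_congr rfl fun y hy => ?_
  by_cases h : x' = x ∧ y = z
  · obtain ⟨rfl, rfl⟩ := h
    simp [hD]
  · have h2 : s(x', y) ≠ s(x, z) := by
      intro h3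
      rcases Sym2.eq_iff.1 h3 with h3 | h3
      · exact h h3
      · exact hz (h3.1 ▸ hx')
    simp only [mem_insert, h2, false_or, if_neg h, add_zero]

theorem W_zero (c : V → ℝ) {S : Finset V} {D : Finset (Sym2 V)}
    (h : ∀ x ∈ S, ∀ z, z ∉ S → s(x, z) ∉ D) : W p c S D = 0 :=
  sum_eq_zero fun x hx => sum_eq_zero fun y hy => if_neg (h x hx y (mem_compl.1 hy))

theorem W_nonneg (hp : ∀ e, 0 ≤ p e) {c : V → ℝ} (hc : ∀ y, 0 ≤ c y) (S : Finset V)
    (D : Finset (Sym2 V)) : 0 ≤ W p c S D :=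
  sum_nonneg fun x _ => sum_nonneg fun y _ => by
    split_ifs
    · exact mul_nonneg (hp _) (hc _)
    · exact le_rfl

theorem M_open (hp : ∀ e, 0 ≤ p e) {S : Finset V} (D : Finset (Sym2 V)) {z : V} (hz : z ∉ S) :
    W p (fun _ => 1) (insert z S) D ≤ W p (fun _ => 1) S D + ∑ y, p s(z, y) := by
  unfold W
  rw [sum_insert hz, add_comm]
  refine add_le_add (sum_le_sum fun x _ => ?_) ?_
  · refine sum_le_sum_of_subset_of_nonneg (compl_subset_compl.2 (subset_insert _ _))
      fun y _ _ => ?_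
    split_ifs
    · simpa using hp _
    · exact le_rfl
  · refine le_trans (sum_le_sum fun y _ => ?_)
      (sum_le_sum_of_subset_of_nonneg (subset_univ _) fun y _ _ => hp _)
    split_ifs
    · simp
    · exact hp _

theorem w_open (hp : ∀ e, 0 ≤ p e) (hdiag : ∀ x, p s(x, x) = 0) {ε : ℝ} {S : Finset V}
    {D : Finset (Sym2 V)} {z : V} (hz : z ∉ S) (hdeg : 1 - ε ≤ ∑ y, p s(z, y))
    (hD : ∀ y, y ∉ insert z S → s(z, y) ∈ D)
    (h2 : ∑ y, p s(z, y) * dd p (insert z S) y ≤ ε) :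
    W p (fun y => 1 - 2 * dd p S y) S D + (1 - 2 * dd p S z) - 5 * ε ≤
      W p (fun y => 1 - 2 * dd p (insert z S) y) (insert z S) D := by
  have hdd : ∀ T y, 0 ≤ dd p T y := fun T y => sum_nonneg fun _ _ => hp _
  have hd' : ∀ y, dd p (insert z S) y = p s(z, y) + dd p S y := fun y => sum_insert hz
  have hc : Sᶜ = insert z (insert z S)ᶜ := by
    ext a
    by_cases h : a = z
    · simp [h, hz]
    · simp [h]
  have hzc : z ∉ (insert z S)ᶜ := by simp
  have h3 : ∑ x ∈ S, ∑ y, p s(x, y) * p s(z, y) ≤ ε := by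
    refine le_trans ?_ h2
    rw [sum_comm]
    refine sum_le_sum fun y _ => ?_
    rw [← sum_mul, mul_comm, hd']
    exact mul_le_mul_of_nonneg_left (le_add_of_nonneg_left (hp _)) (hp _)
  have h4 : ∀ x ∈ S, (∑ y ∈ Sᶜ, if s(x, y) ∈ D then p s(x, y) * (1 - 2 * dd p S y) else 0) -
      p s(x, z) - 2 * ∑ y, p s(x, y) * p s(z, y) ≤
      ∑ y ∈ (insert z S)ᶜ, if s(x, y) ∈ D then p s(x, y) * (1 - 2 * dd p (insert z S) y) else 0 := by
    intro x _
    rw [hc, sum_insert hzc]
    have a1 : (if s(x, z) ∈ D then p s(x, z) * (1 - 2 * dd p S z) else 0) ≤ p s(x, z) := by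
      split_ifs
      · nlinarith [mul_nonneg (hp s(x, z)) (hdd S z)]
      · exact hp _
    have a2 : ∑ y ∈ (insert z S)ᶜ, p s(x, y) * p s(z, y) ≤ ∑ y, p s(x, y) * p s(z, y) :=
      sum_le_sum_of_subset_of_nonneg (subset_univ _) fun y _ _ => mul_nonneg (hp _) (hp _)
    have a3 : (∑ y ∈ (insert z S)ᶜ, if s(x, y) ∈ D then p s(x, y) * (1 - 2 * dd p S y) else 0) -
        2 * ∑ y ∈ (insert z S)ᶜ, p s(x, y) * p s(z, y) ≤ ∑ y ∈ (insert z S)ᶜ,
        if s(x, y) ∈ D then p s(x, y) * (1 - 2 * dd p (insert z S) y) else 0 := by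
      rw [mul_sum, ← sum_sub_distrib]
      refine sum_le_sum fun y _ => ?_
      rw [hd']
      split_ifs
      · linarith
      · nlinarith [mul_nonneg (hp s(x, y)) (hp s(z, y))]
    linarith
  have h5 := sum_le_sum h4
  rw [sum_sub_distrib, sum_sub_distrib, ← mul_sum] at h5
  have h6 : (∑ y ∈ (insert z S)ᶜ,
      if s(z, y) ∈ D then p s(z, y) * (1 - 2 * dd p (insert z S) y) else 0) =
      ∑ y ∈ (insert z S)ᶜ, p s(z, y) - 2 * ∑ y ∈ (insert z S)ᶜ, p s(z, y) * dd p (insert z S) y := by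
    rw [mul_sum, ← sum_sub_distrib]
    refine sum_congr rfl fun y hy => ?_
    rw [if_pos (hD y (mem_compl.1 hy))]
    ring
  have h7 : ∑ y ∈ (insert z S)ᶜ, p s(z, y) * dd p (insert z S) y ≤ ε :=
    le_trans (sum_le_sum_of_subset_of_nonneg (subset_univ _)
      fun y _ _ => mul_nonneg (hp _) (hdd _ _)) h2
  have h8 : ∑ y ∈ (insert z S)ᶜ, p s(z, y) = ∑ y, p s(z, y) - dd p S z := by
    rw [← sum_add_sum_compl (insert z S), sum_insert hz, hdiag]
    have : ∑ y ∈ S, p s(z, y) = dd p S z := sum_congr rfl fun y _ => by rw [Sym2.eq_swap]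
    rw [this]
    ring
  unfold W
  rw [sum_insert hz, h6, h8]
  have h9 : ∑ x ∈ S, p s(x, z) = dd p S z := rfl
  linarith

open Classical in
theorem lower_rec (hp : ∀ e, 0 ≤ p e ∧ p e ≤ 1 / 10) (hdiag : ∀ x, p s(x, x) = 0) {s ε : ℝ}
    (hs0 : 0 < s) (hs : s ≤ 1 / 100) (hε0 : 0 ≤ ε) (hε : ε ≤ s) {K : ℕ}
    (hdeg : ∀ z, 1 - ε ≤ ∑ y, p s(z, y) ∧ ∑ y, p s(z, y) ≤ 2)
    (h1 : ∀ S : Finset V, S.card ≤ K → ∀ y, dd p S y ≤ 1 / 4)
    (h2 : ∀ S : Finset V, S.card ≤ K → ∀ z, ∑ y, p s(z, y) * dd p S y ≤ ε)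
    (D : Finset (Sym2 V)) : ∀ (S : Finset V) (k : ℕ), S.card + k ≤ K →
      (∀ a b, a ∉ S → b ∉ S → a ≠ b → s(a, b) ∈ D) →
      exp (-(13000 * s ^ 2 * (2 * k + W p (fun _ => 1) S D))) *
        psi s (W p (fun y => 1 - 2 * dd p S y) S D) ≤
      Ex p D (fun ω => if k ≤ (out S ω).card then 1 else 0) := by
  have hp0 : ∀ e, 0 ≤ p e := fun e => (hp e).1
  have hp1 : ∀ e, 0 ≤ p e ∧ p e ≤ 1 := fun e => ⟨(hp e).1, by linarith [(hp e).2]⟩
  induction D using Finset.strongInduction with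
  | H D ih =>
    intro S k hk hD
    have hc : ∀ y, 0 ≤ 1 - 2 * dd p S y := fun y => by linarith [h1 S (by omega) y]
    rcases k with _ | k
    · simp only [Nat.zero_le, if_true, Ex_const]
      refine mul_le_one₀ (exp_le_one_iff.2 ?_) (psi_nonneg _ _)
        (psi_le_one hs0.le (W_nonneg hp0 hc _ _))
      have := W_nonneg hp0 (c := fun _ => 1) (fun _ => zero_le_one) S D
      simp only [Nat.cast_zero, mul_zero, zero_add, neg_nonpos]
      positivity
    by_cases hQ : ∃ x ∈ S, ∃ z, z ∉ S ∧ s(x, z) ∈ D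
    swap
    · have : W p (fun y => 1 - 2 * dd p S y) S D = 0 :=
        W_zero _ fun x hx z hz h => hQ ⟨x, hx, z, hz, h⟩
      rw [this]
      have : psi s 0 = 0 := by simp [psi]
      rw [this, mul_zero]
      exact Ex_nonneg hp1 fun ω _ => by split_ifs <;> norm_num
    obtain ⟨x, hx, z, hz, hxz⟩ := hQ
    obtain ⟨D', hD', rfl⟩ : ∃ D', s(x, z) ∉ D' ∧ D = insert s(x, z) D' :=
      ⟨D.erase s(x, z), notMem_erase _ _, (insert_erase hxz).symm⟩
    have hsub : D' ⊂ insert s(x, z) D' := ssubset_insert hD'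
    have hDS : ∀ a b, a ∉ S → b ∉ S → a ≠ b → s(a, b) ∈ D' := by
      intro a b ha hb hab
      rcases mem_insert.1 (hD a b ha hb hab) with h | h
      · rcases Sym2.eq_iff.1 h with h | h
        · exact absurd (h.1 ▸ hx) ha
        · exact absurd (h.2 ▸ hx) hb
      · exact h
    have hcard : (insert z S).card = S.card + 1 := card_insert_of_notMem hz
    have i1 := ih D' hsub S (k + 1) hk hDS
    have i2 := ih D' hsub (insert z S) k (by omega) fun a b ha hb hab =>
      hDS a b (fun h => ha (mem_insert_of_mem h)) (fun h => hb (mem_insert_of_mem h)) hab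
    rw [Ex_insert hD', W_insert _ hx hz hD', W_insert _ hx hz hD']
    have e1 : Ex p D' (fun ω => if k + 1 ≤ (out S (insert s(x, z) ω)).card then 1 else 0) =
        Ex p D' (fun ω => if k ≤ (out (insert z S) ω).card then 1 else 0) :=
      Ex_congr fun ω _ => by simp only [out_insert hx hz, Nat.add_le_add_iff_right]
    rw [e1]
    have m1 := M_open hp0 D' hz
    have m2 := w_open hp0 hdiag hz (hdeg z).1 (D := D') (fun y hy => hDS z y hz
      (fun h => hy (mem_insert_of_mem h)) (fun h => hy (h ▸ mem_insert_self _ _)))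
      (h2 _ (by omega) z)
    have hdz : 0 ≤ dd p S z := sum_nonneg fun _ _ => hp0 _
    have m3 := step_lower (p := p s(x, z)) (hp0 _) (by linarith [(hp s(x, z)).2]) hs0 hs
      (h := 1 - 2 * dd p S z) (by linarith [h1 S (by omega) z]) (by linarith) hε0 hε
      (W_nonneg hp0 hc S D') m2
    have m4 : exp (-(13000 * s ^ 2 * (2 * ((k + 1 : ℕ) : ℝ) + W p (fun _ => 1) S D'))) ≤
        exp (-(13000 * s ^ 2 * (2 * k + W p (fun _ => 1) (insert z S) D'))) := by
      refine exp_le_exp.2 (neg_le_neg (mul_le_mul_of_nonneg_left ?_ (by positivity)))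
      push_cast
      linarith [(hdeg z).2]
    have m5 := le_trans (mul_le_mul_of_nonneg_right m4 (psi_nonneg _ _)) i2
    have e2 : exp (-(13000 * s ^ 2 * (2 * ((k + 1 : ℕ) : ℝ) +
        (W p (fun _ => 1) S D' + p s(x, z) * 1)))) =
        exp (-(13000 * s ^ 2 * (2 * ((k + 1 : ℕ) : ℝ) + W p (fun _ => 1) S D'))) *
          exp (-(13000 * s ^ 2 * p s(x, z))) := by
      rw [← exp_add]; congr 1; ring
    rw [e2, mul_assoc]
    have m6 := mul_le_mul_of_nonneg_left m3
      (exp_pos (-(13000 * s ^ 2 * (2 * ((k + 1 : ℕ) : ℝ) + W p (fun _ => 1) S D')))).le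
    have m7 := mul_le_mul_of_nonneg_left m5 (hp0 s(x, z))
    have m8 := mul_le_mul_of_nonneg_left i1 (sub_nonneg.2 (hp1 s(x, z)).2)
    linarith

theorem upper_rec (hp : ∀ e, 0 ≤ p e ∧ p e ≤ 1 / 10) {s : ℝ} (hs0 : 0 < s) (hs : s ≤ 1 / 100)
    (hdeg : ∀ z, ∑ y, p s(z, y) ≤ 1 + s / 10) (D : Finset (Sym2 V)) : ∀ S : Finset V,
      exp (-(s * W p (fun _ => 1) S D)) ≤
      Ex p D (fun ω => exp (-(s ^ 2 / 10 * (out S ω).card))) := by
  have hp0 : ∀ e, 0 ≤ p e := fun e => (hp e).1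
  have hp1 : ∀ e, 0 ≤ p e ∧ p e ≤ 1 := fun e => ⟨(hp e).1, by linarith [(hp e).2]⟩
  induction D using Finset.strongInduction with
  | H D ih =>
    intro S
    by_cases hQ : ∃ x ∈ S, ∃ z, z ∉ S ∧ s(x, z) ∈ D
    swap
    · rw [W_zero _ fun x hx z hz h => hQ ⟨x, hx, z, hz, h⟩]
      refine le_of_eq (Eq.symm ((Ex_congr fun ω hω => ?_).trans (Ex_const _)))
      rw [out_empty fun x hx z hz h => hQ ⟨x, hx, z, hz, hω h⟩]
      simp
    obtain ⟨x, hx, z, hz, hxz⟩ := hQ
    obtain ⟨D', hD', rfl⟩ : ∃ D', s(x, z) ∉ D' ∧ D = insert s(x, z) D' :=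
      ⟨D.erase s(x, z), notMem_erase _ _, (insert_erase hxz).symm⟩
    have hsub : D' ⊂ insert s(x, z) D' := ssubset_insert hD'
    have i1 := ih D' hsub S
    have i2 := ih D' hsub (insert z S)
    rw [Ex_insert hD', W_insert _ hx hz hD']
    have e1 : Ex p D' (fun ω => exp (-(s ^ 2 / 10 * (out S (insert s(x, z) ω)).card))) =
        exp (-(s ^ 2 / 10)) * Ex p D' (fun ω => exp (-(s ^ 2 / 10 * (out (insert z S) ω).card))) := by
      rw [← Ex_mul]
      refine Ex_congr fun ω _ => ?_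
      rw [out_insert hx hz, ← exp_add]
      congr 1
      push_cast
      ring
    rw [e1]
    have m1 := M_open hp0 D' hz
    have m2 := step_upper (hp0 s(x, z)) (hp _).2 hs0 hs
    have m3 : exp (-(s * W p (fun _ => 1) S D')) * exp (-(s ^ 2 / 10 + s * (1 + s / 10))) ≤
        exp (-(s ^ 2 / 10)) * exp (-(s * W p (fun _ => 1) (insert z S) D')) := by
      rw [← exp_add, ← exp_add]
      refine exp_le_exp.2 ?_
      have : s * W p (fun _ => 1) (insert z S) D' ≤ s * (W p (fun _ => 1) S D' + (1 + s / 10)) :=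
        mul_le_mul_of_nonneg_left (by linarith [hdeg z]) hs0.le
      linarith
    have m4 := m3.trans (mul_le_mul_of_nonneg_left i2 (exp_pos _).le)
    have e2 : exp (-(s * (W p (fun _ => 1) S D' + p s(x, z) * 1))) =
        exp (-(s * W p (fun _ => 1) S D')) * exp (-(s * p s(x, z))) := by
      rw [← exp_add]; congr 1; ring
    rw [e2]
    have m6 := mul_le_mul_of_nonneg_left m2 (exp_pos (-(s * W p (fun _ => 1) S D'))).le
    have m7 := mul_le_mul_of_nonneg_left m4 (hp0 s(x, z))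
    have m8 := mul_le_mul_of_nonneg_left i1 (sub_nonneg.2 (hp1 s(x, z)).2)
    linarith

end Pool.Agent.H102Z.Hier
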