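import Pool.Agent.H102Z.Hier.Zeta

set_option autoImplicit false

namespace Pool.Agent.H102Z.Hier

open Finset Real

theorem zp {z : ℝ} (hz0 : 0 < z) (hz : z ≤ 1 / 1000) {a b : ℕ} (h : a < b) :
    z ^ b ≤ z ^ a / 1000 := by
  have h1 : z ^ b ≤ z ^ (a + 1) := pow_le_pow_of_le_one hz0.le (by linarith) h
  have h2 := mul_le_mul_of_nonneg_left hz (pow_pos hz0 a).le
  rw [pow_succ] at h1
  linarith

theorem err_one {z N K : ℝ} (hz0 : 0 < z) (hz : z ≤ 1 / 1000) (hN : 1 ≤ N * z ^ 4000)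
    (hK0 : 0 ≤ K) (hK : K * z ^ 286 ≤ 2) : (2 * K) ^ 2 * (2 * N) / (N * z ^ 141 / 4) ^ 2 ≤ z := by
  have hN0 : 0 < N := by
    by_contra h
    have := mul_nonpos_of_nonpos_of_nonneg (not_lt.1 h) (pow_pos hz0 4000).le
    linarith
  rw [div_le_iff₀ (by positivity)]
  have h1 : (K * z ^ 286) ^ 2 ≤ 2 ^ 2 := pow_le_pow_left₀ (by positivity) hK 2
  have h2 : z ^ 4000 ≤ z ^ 855 / 1000 := zp hz0 hz (by norm_num)
  have h3 : 1000 ≤ N * z ^ 855 := by
    have := mul_le_mul_of_nonneg_left h2 hN0.le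
    linarith
  have h4 : 0 < z ^ 572 := pow_pos hz0 _
  refine le_of_mul_le_mul_right ?_ h4
  have e1 : (2 * K) ^ 2 * (2 * N) * z ^ 572 = 8 * N * (K * z ^ 286) ^ 2 := by ring
  have e2 : z * (N * z ^ 141 / 4) ^ 2 * z ^ 572 = N * (N * z ^ 855) / 16 := by ring
  rw [e1, e2]
  have h5 := mul_le_mul_of_nonneg_left h3 hN0.le
  have h6 := mul_le_mul_of_nonneg_left h1 hN0.le
  linarith

theorem err_two {z N H k : ℝ} (hz0 : 0 < z) (hz : z ≤ 1 / 1000) (hN : N ≤ exp z⁻¹)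
    (hH0 : 0 ≤ H) (hH : H * z ≤ 1) (hk : 1 ≤ k * z ^ 138) :
    N * (H * exp (-((z ^ 41) ^ 3 * k))) ≤ z := by
  have hy : 0 < z⁻¹ := inv_pos.2 hz0
  have h1 : H ≤ exp z⁻¹ := by
    have : H ≤ z⁻¹ := by rw [inv_eq_one_div, le_div_iff₀ hz0]; exact hH
    linarith [add_one_le_exp z⁻¹]
  have h2 : 3 * z⁻¹ ≤ (z ^ 41) ^ 3 * k := by
    rw [← div_eq_mul_inv, div_le_iff₀ hz0]
    have a1 : z ^ 138 ≤ z ^ 124 / 1000 := zp hz0 hz (by norm_num)
    have hk0 : 0 ≤ k := by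
      by_contra h
      have := mul_nonpos_of_nonpos_of_nonneg (not_le.1 h).le (pow_pos hz0 138).le
      linarith
    have a2 := mul_le_mul_of_nonneg_left a1 hk0
    have e : (z ^ 41) ^ 3 * k * z = k * z ^ 124 := by ring
    rw [e]
    linarith
  have h3 : exp (-((z ^ 41) ^ 3 * k)) ≤ exp (-(3 * z⁻¹)) := exp_le_exp.2 (by linarith)
  have h4 : exp (-z⁻¹) ≤ z := by
    rw [exp_neg, inv_le_comm₀ (exp_pos _) hz0]
    linarith [add_one_le_exp z⁻¹]
  calc N * (H * exp (-((z ^ 41) ^ 3 * k))) ≤ exp z⁻¹ * (exp z⁻¹ * exp (-(3 * z⁻¹))) :=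
        mul_le_mul hN (mul_le_mul h1 h3 (exp_pos _).le (exp_pos _).le) (by positivity)
          (exp_pos _).le
    _ = exp (-z⁻¹) := by rw [← exp_add, ← exp_add]; congr 1; ring
    _ ≤ z := h4

variable {d L n : ℕ} [NeZero L]

theorem fin_bound (hd : 1 ≤ d) (hL : 2 ≤ L) (hn : 2 ≤ n) (ρ : ℝ → ℝ) (ζ lam : ℝ) (P : ℕ → ℝ)
    (hP : P = pl L ρ ζ (lam * (L : ℝ) ^ (-(4 * (n : ℝ) * d / 3)))) {z : ℝ} (hz0 : 0 < z)
    (hz : z ≤ 1 / 1000) (hP1 : ∀ i, P i ≤ 1 / 10)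
    (hdeg : |∑ i ∈ Icc 1 n, (((L : ℝ) ^ d - 1) * ((L : ℝ) ^ d) ^ (i - 1)) * P i - 1| ≤ z ^ 143)
    (j : ℕ) (hm : ∑ i ∈ Icc 1 n, (((L : ℝ) ^ d - 1) * ((L : ℝ) ^ d) ^ (i - 1)) *
      (if i ≤ j then P i else 0) ≤ z ^ 36)
    (hr : ∀ i, j < i → P i ≤ z ^ 236) (hτ1 : z ^ 41 ≤ P 1) (hτ2 : z ^ 41 ≤ P 2)
    (hN : 1 ≤ ((L : ℝ) ^ d) ^ n * z ^ 4000) (hN' : ((L : ℝ) ^ d) ^ n ≤ exp z⁻¹)
    (he : 64 * z ≤ exp (-52000)) (i : ℕ) (hi : i * z ≤ 1) (hb : ((L : ℝ) ^ d) ^ 2 * z ≤ 1) :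
    1 - 2 * z ≤ graphProb (edgeProb (d := d) (L := L) (n := n) ρ ζ lam) (TopTriangle i) := by
  classical
  have hz1 : z ≤ 1 := by linarith
  have zpos : ∀ a : ℕ, 0 < z ^ a := fun a => pow_pos hz0 a
  have hpe : ∀ x y : Lam d L n, pe ρ ζ lam s(x, y) = P (level (x - y)) := fun x y => by
    rw [hP]; exact pe_eq ρ ζ lam x y
  have hP0 : ∀ i, 0 ≤ P i := fun i => by rw [hP]; exact pl_nonneg _ _ _ _
  have hP00 : P 0 = 0 := by rw [hP]; simp [pl]
  have hp : ∀ e : Sym2 (Lam d L n), 0 ≤ pe ρ ζ lam e ∧ pe ρ ζ lam e ≤ 1 / 10 := fun e => by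
    induction e using Sym2.ind with
    | _ x y => rw [hpe]; exact ⟨hP0 _, hP1 _⟩
  have hdiag : ∀ x : Lam d L n, pe ρ ζ lam s(x, x) = 0 := fun x => by simp [pe]
  have hdeg' : ∀ x : Lam d L n, 1 - z ^ 70 ≤ ∑ y, pe ρ ζ lam s(x, y) ∧
      ∑ y, pe ρ ζ lam s(x, y) ≤ 1 + z ^ 142 / 10 := by
    intro x
    rw [sum_congr rfl fun y _ => hpe x y, sum_level_sub P x, hP00, zero_add]
    have := abs_le.1 hdeg
    have a1 := zp hz0 hz (show 70 < 143 by norm_num)
    have a2 := zp hz0 hz (show 142 < 143 by norm_num)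
    constructor <;> linarith [zpos 70, zpos 142]
  have z70 : z ^ 70 ≤ 1 / 100 := by
    have := zp hz0 hz (show 0 < 70 by norm_num)
    rw [pow_zero] at this
    linarith
  have z142 : z ^ 142 ≤ 1 / 100 := by
    have := zp hz0 hz (show 0 < 142 by norm_num)
    rw [pow_zero] at this
    linarith
  obtain ⟨K, hK1, hK2⟩ := ceil_pow hz0 hz1 140
  obtain ⟨K₂, hK₂1, hK₂2⟩ := ceil_pow hz0 hz1 286
  obtain ⟨k, hk1, hk2⟩ := ceil_pow hz0 hz1 138
  have hK0 : (0 : ℝ) ≤ K := Nat.cast_nonneg _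
  have hK₂0 : (0 : ℝ) ≤ K₂ := Nat.cast_nonneg _
  have hk0 : (0 : ℝ) ≤ k := Nat.cast_nonneg _
  have hKr : (K : ℝ) * z ^ 236 ≤ 2 * z ^ 96 := by
    have := mul_le_mul_of_nonneg_right hK2 (zpos 96).le
    calc (K : ℝ) * z ^ 236 = K * z ^ 140 * z ^ 96 := by ring
      _ ≤ _ := this
  have hnear := fun (S : Finset (Lam d L n)) (hS : S.card ≤ K) =>
    near_bounds (p := pe ρ ζ lam) (fun e => (hp e).1) (fun x => by linarith [(hdeg' x).2])
    (fun x y => level (x - y) ≤ j) (m := z ^ 36) (r := z ^ 236) (fun x => by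
      refine le_trans (le_of_eq ?_) hm
      rw [← zero_add (∑ i ∈ Icc 1 n, _)]
      refine Eq.trans ?_ ((sum_level_sub (fun i => if i ≤ j then P i else 0) x).trans ?_)
      · refine sum_congr rfl fun y _ => ?_
        rw [hpe]
        congr
      · simp [hP00]) (zpos _).le
      (fun x y h => by rw [hpe]; exact hr _ (not_le.1 h)) S hS
  have hcard : (Fintype.card (Lam d L n) : ℝ) = ((L : ℝ) ^ d) ^ n := by
    rw [card_lam]; push_cast; rfl
  have hcardH : (Fintype.card (Fin 2 → Fin d → ZMod L) : ℝ) = ((L : ℝ) ^ d) ^ 2 := by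
    rw [card_lam]; push_cast; rfl
  have hN0 : 0 < ((L : ℝ) ^ d) ^ n := by
    have : (0 : ℝ) < L := by exact_mod_cast (by omega : 0 < L)
    positivity
  have : Fact (1 < L) := ⟨hL⟩
  let g : Fin d → ZMod L := fun _ => 1
  have hg : g ≠ 0 := fun h => one_ne_zero (congrFun h ⟨0, hd⟩)
  let i0 : Fin n := ⟨0, by omega⟩
  let i1 : Fin n := ⟨1, by omega⟩
  have hi01 : i0 ≠ i1 := fun h => by simpa [i0, i1] using congrArg Fin.val h
  have key := abstract_bound (p := pe ρ ζ lam) hp hdiag (s := z ^ 70) (ε := z ^ 70)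
    (s' := z ^ 142) (τ := z ^ 41) (μ := ((L : ℝ) ^ d) ^ n * z ^ 141 / 4) (zpos _) z70 (zpos _).le
    le_rfl (K := K) (K₂ := K₂) (k := k) (i := i) ?_ (zpos _) z142 hdeg' ?_ ?_ ?_
    (by have := zpos 141; positivity) ?_ ?_
    (fun (y : Lam d L n) (i : Fin n) => if i.val < 2 then 0 else y i)
    (fun (y : Lam d L n) (i : Fin 2) => y (Fin.castLE hn i))
    (fun y => y + Pi.single i0 g) (fun y => y + Pi.single i1 g) ?_ ?_ ?_ ?_ (zpos _).le ?_ ?_
    (D := univ.filter fun e => ¬ e.IsDiag) (fun a b hab => by simpa using hab)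
  · rw [graphProb_eq]
    refine le_trans ?_ (key.trans (le_of_eq ?_))
    · rw [hcard, hcardH]
      have a1 := err_one hz0 hz hN hK₂0 hK₂2
      have a2 := err_two hz0 hz hN' (by positivity) hb hk1
      linarith
    · congr
  · by_contra h
    have : K = 0 := by omega
    rw [this] at hK1
    norm_num at hK1
  · intro S hS y
    have a1 := zp hz0 hz (show 0 < 36 by norm_num)
    have a2 := zp hz0 hz (show 0 < 96 by norm_num)
    rw [pow_zero] at a1 a2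
    linarith [(hnear S hS).1 y]
  · intro S hS y
    have a1 := zp hz0 hz (show 70 < 72 by norm_num)
    have a2 := zp hz0 hz (show 70 < 96 by norm_num)
    have e : (z ^ 36) ^ 2 = z ^ 72 := by ring
    linarith [(hnear S hS).2 y, zpos 70]
  · have a1 := zp hz0 hz (show 284 < 286 by norm_num)
    have a2 := mul_le_mul_of_nonneg_left a1 hK₂0
    have a3 := zp hz0 hz (show 0 < 284 by norm_num)
    rw [pow_zero] at a3
    have e : (z ^ 142) ^ 2 / 10 * ((K₂ : ℝ) - 1) = (K₂ * z ^ 284 - z ^ 284) / 10 := by ring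
    rw [e]
    linarith
  · refine le_of_mul_le_mul_right ?_ (zpos 287)
    have a1 : (i : ℝ) * z * (K₂ * z ^ 286) ≤ 1 * 2 :=
      mul_le_mul hi hK₂2 (by have := zpos 286; positivity) (by norm_num)
    have a2 := mul_le_mul_of_nonneg_left (zp hz0 hz (show 428 < 4000 by norm_num)) hN0.le
    have e1 : (i : ℝ) * K₂ * z ^ 287 = i * z * (K₂ * z ^ 286) := by ring
    have e2 : ((L : ℝ) ^ d) ^ n * z ^ 141 / 4 * z ^ 287 = ((L : ℝ) ^ d) ^ n * z ^ 428 / 4 := by ring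
    rw [e1, e2]
    linarith
  · rw [hcard]
    have a1 : exp (-52000) ≤ exp (-(26000 * (z ^ 70) ^ 2 * K)) := by
      refine exp_le_exp.2 ?_
      have e : 26000 * (z ^ 70) ^ 2 * (K : ℝ) = 26000 * (K * z ^ 140) := by ring
      rw [e]
      linarith
    have a2 : z ^ 141 ≤ exp (-(26000 * (z ^ 70) ^ 2 * K)) * ((z ^ 70) ^ 2 / 64) := by
      have := mul_le_mul_of_nonneg_right (he.trans a1) (show 0 ≤ (z ^ 70) ^ 2 / 64 by positivity)
      calc z ^ 141 = 64 * z * ((z ^ 70) ^ 2 / 64) := by ring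
        _ ≤ _ := this
    have a3 := zp hz0 hz (show 141 < 142 by norm_num)
    have a4 : z ^ 141 / 2 ≤ exp (-(26000 * (z ^ 70) ^ 2 * K)) * ((z ^ 70) ^ 2 / 64) - 4 * z ^ 142 := by
      linarith [zpos 141]
    have a5 := mul_le_mul_of_nonneg_left a4 hN0.le
    linarith
  · intro y
    funext i
    split_ifs with h
    · rfl
    · rw [Pi.add_apply, Pi.single_eq_of_ne (fun h' => h (by rw [h']; simp [i0])), add_zero]
  · intro y
    funext i
    split_ifs with h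
    · rfl
    · rw [Pi.add_apply, Pi.single_eq_of_ne (fun h' => h (by rw [h']; simp [i1])), add_zero]
  · intro y y' h1 h2
    funext i
    by_cases h : i.val < 2
    · exact congrFun h2 ⟨i.val, h⟩
    · have := congrFun h1 i
      simpa only [if_neg h] using this
  · intro y
    refine ⟨fun h => hg ?_, fun h => hg ?_, fun h => hg ?_⟩
    · have := congrFun h i0
      simpa using this
    · have := congrFun h i0
      simpa [Pi.single_eq_of_ne hi01] using this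
    · have := congrFun h i1
      simpa using this
  · intro y y' h1 h2
    rw [hpe]
    have a1 : level (y - y') ≤ 2 := level_le.2 fun i hi => by
      have := congrFun h2 i
      simp only [if_neg (not_lt.2 hi)] at this
      rw [Pi.sub_apply, this, sub_self]
    have a2 : level (y - y') ≠ 0 := fun h => h1 (sub_eq_zero.1 (level_eq_zero.1 h))
    have a3 : level (y - y') = 1 ∨ level (y - y') = 2 := by omega
    rcases a3 with h | h <;> rw [h] <;> assumption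
  · have : (Fintype.card (Fin 2 → Fin d → ZMod L) : ℝ) * k ≤ K := by
      rw [hcardH]
      refine le_of_mul_le_mul_right ?_ (zpos 140)
      have a1 : ((L : ℝ) ^ d) ^ 2 * z * (k * z ^ 138) ≤ 1 * 2 :=
        mul_le_mul hb hk2 (by have := zpos 138; positivity) (by norm_num)
      have a2 := mul_le_mul_of_nonneg_right a1 hz0.le
      have e : ((L : ℝ) ^ d) ^ 2 * k * z ^ 140 = ((L : ℝ) ^ d) ^ 2 * z * (k * z ^ 138) * z := by ring
      rw [e]
      linarith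
    exact_mod_cast this

end Pool.Agent.H102Z.Hier
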