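import Pool.Agent.H102Z.Hier.Fin
import Pool.Agent.H102Z.Hier.Abs2

set_option autoImplicit false

namespace Pool.Agent.H102Z.Hier

open Finset Real

theorem ceil_pow' {z : ℝ} (hz0 : 0 < z) (hz1 : z ≤ 1) (a : ℕ) :
    ∃ K : ℕ, 1 ≤ K * z ^ a ∧ K * z ^ a ≤ 2 ∧ ∀ m : ℕ, (z ^ a)⁻¹ ≤ m ↔ K ≤ m := by
  have h0 : 0 < z ^ a := pow_pos hz0 a
  have h1 : z ^ a ≤ 1 := pow_le_one₀ hz0.le hz1
  refine ⟨⌈(z ^ a)⁻¹⌉₊, ?_, ?_, fun m => Nat.ceil_le.symm⟩
  · rw [← inv_le_iff_one_le_mul₀ h0]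
    exact Nat.le_ceil _
  · have := (Nat.ceil_lt_add_one (inv_nonneg.2 h0.le)).le
    have h2 := mul_le_mul_of_nonneg_right this h0.le
    rw [add_mul, inv_mul_cancel₀ h0.ne'] at h2
    linarith

variable {d L n : ℕ} [NeZero L]

theorem fin_bound2 {ξ : ℝ} (hd : 1 ≤ d) (hL : 2 ≤ L) (hn : 2 ≤ n) (ρ : ℝ → ℝ) (ζ lam : ℝ) (P : ℕ → ℝ)
    (hP : P = pl L ρ ζ (lam * (L : ℝ) ^ (-(4 * (n : ℝ) * d / 3)))) {z : ℝ} (hz0 : 0 < z)
    (hz : z ≤ 1 / 1000) (hP1 : ∀ i, P i ≤ 1 / 10)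
    (hdeg : |∑ i ∈ Icc 1 n, (((L : ℝ) ^ d - 1) * ((L : ℝ) ^ d) ^ (i - 1)) * P i - 1| ≤ z ^ 143)
    (j : ℕ) (hm : ∑ i ∈ Icc 1 n, (((L : ℝ) ^ d - 1) * ((L : ℝ) ^ d) ^ (i - 1)) *
      (if i ≤ j then P i else 0) ≤ z ^ 36)
    (hr : ∀ i, j < i → P i ≤ z ^ 236) (hτ1 : z ^ 41 ≤ P 1) (hτ2 : z ^ 41 ≤ P 2)
    (hN : 1 ≤ ((L : ℝ) ^ d) ^ n * z ^ 4000) (hN' : ((L : ℝ) ^ d) ^ n ≤ exp z⁻¹)
    (he : 64 * z ≤ exp (-52000)) (hb : ((L : ℝ) ^ d) ^ 2 * z ≤ 1)
    (hξ : ∀ i, P i ≤ pl L ρ ξ (lam * (L : ℝ) ^ (-(4 * (n : ℝ) * d / 3))) i) :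
    1 - 2 * z ≤ graphProb (edgeProb (d := d) (L := L) (n := n) ρ ξ lam)
      (BigTriangle (z ^ 140)⁻¹) := by
  classical
  have hz1 : z ≤ 1 := by linarith
  have zpos : ∀ a : ℕ, 0 < z ^ a := fun a => pow_pos hz0 a
  have hpe : ∀ x y : Lam d L n, pe ρ ζ lam s(x, y) = P (level (x - y)) := fun x y => by
    rw [hP]; exact pe_eq ρ ζ lam x y
  have hP0 : ∀ i, 0 ≤ P i := fun i => by rw [hP]; exact pl_nonneg _ _ _ _
  have hP00 : P 0 = 0 := by rw [hP]; simp [pl]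
  have hp : ∀ e : Sym2 (Lam d L n), 0 ≤ pe ρ ζ lam e ∧ pe ρ ζ lam e ≤ 1 / 10 := fun e => by
    induction e using Sym2.ind with
    | _ x y => rw [hpe]; exact ⟨hP0 _, hP1 _⟩
  have hdiag : ∀ x : Lam d L n, pe ρ ζ lam s(x, x) = 0 := fun x => by simp [pe]
  have hdeg' : ∀ x : Lam d L n, 1 - z ^ 70 ≤ ∑ y, pe ρ ζ lam s(x, y) ∧
      ∑ y, pe ρ ζ lam s(x, y) ≤ 1 + z ^ 142 / 10 := by
    intro x
    rw [sum_congr rfl fun y _ => hpe x y, sum_level_sub P x, hP00, zero_add]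
    have := abs_le.1 hdeg
    have a1 := zp hz0 hz (show 70 < 143 by norm_num)
    have a2 := zp hz0 hz (show 142 < 143 by norm_num)
    constructor <;> linarith [zpos 70, zpos 142]
  have z70 : z ^ 70 ≤ 1 / 100 := by
    have := zp hz0 hz (show 0 < 70 by norm_num)
    rw [pow_zero] at this
    linarith
  have z142 : z ^ 142 ≤ 1 / 100 := by
    have := zp hz0 hz (show 0 < 142 by norm_num)
    rw [pow_zero] at this
    linarith
  obtain ⟨K, hK1, hK2, hK3⟩ := ceil_pow' hz0 hz1 140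
  obtain ⟨K₂, hK₂1, hK₂2⟩ := ceil_pow hz0 hz1 286
  obtain ⟨k, hk1, hk2⟩ := ceil_pow hz0 hz1 138
  have hK0 : (0 : ℝ) ≤ K := Nat.cast_nonneg _
  have hK₂0 : (0 : ℝ) ≤ K₂ := Nat.cast_nonneg _
  have hk0 : (0 : ℝ) ≤ k := Nat.cast_nonneg _
  have hKr : (K : ℝ) * z ^ 236 ≤ 2 * z ^ 96 := by
    have := mul_le_mul_of_nonneg_right hK2 (zpos 96).le
    calc (K : ℝ) * z ^ 236 = K * z ^ 140 * z ^ 96 := by ring
      _ ≤ _ := this
  have hnear := fun (S : Finset (Lam d L n)) (hS : S.card ≤ K) =>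
    near_bounds (p := pe ρ ζ lam) (fun e => (hp e).1) (fun x => by linarith [(hdeg' x).2])
    (fun x y => level (x - y) ≤ j) (m := z ^ 36) (r := z ^ 236) (fun x => by
      refine le_trans (le_of_eq ?_) hm
      rw [← zero_add (∑ i ∈ Icc 1 n, _)]
      refine Eq.trans ?_ ((sum_level_sub (fun i => if i ≤ j then P i else 0) x).trans ?_)
      · refine sum_congr rfl fun y _ => ?_
        rw [hpe]
        congr
      · simp [hP00]) (zpos _).le
      (fun x y h => by rw [hpe]; exact hr _ (not_le.1 h)) S hS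
  have hcard : (Fintype.card (Lam d L n) : ℝ) = ((L : ℝ) ^ d) ^ n := by
    rw [card_lam]; push_cast; rfl
  have hcardH : (Fintype.card (Fin 2 → Fin d → ZMod L) : ℝ) = ((L : ℝ) ^ d) ^ 2 := by
    rw [card_lam]; push_cast; rfl
  have hN0 : 0 < ((L : ℝ) ^ d) ^ n := by
    have : (0 : ℝ) < L := by exact_mod_cast (by omega : 0 < L)
    positivity
  have : Fact (1 < L) := ⟨hL⟩
  let g : Fin d → ZMod L := fun _ => 1
  have hg : g ≠ 0 := fun h => one_ne_zero (congrFun h ⟨0, hd⟩)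
  let i0 : Fin n := ⟨0, by omega⟩
  let i1 : Fin n := ⟨1, by omega⟩
  have hi01 : i0 ≠ i1 := fun h => by simpa [i0, i1] using congrArg Fin.val h
  have hp' : ∀ e : Sym2 (Lam d L n), pe ρ ζ lam e ≤ pe ρ ξ lam e ∧ pe ρ ξ lam e < 1 := fun e => by
    induction e using Sym2.ind with
    | _ x y =>
    rw [hpe, pe_eq]
    refine ⟨hξ _, ?_⟩
    unfold pl
    split_ifs
    · norm_num
    · exact sub_lt_self _ (exp_pos _)
  have key := abstract_bound2 (p := pe ρ ζ lam) hp' hp hdiag (s := z ^ 70) (ε := z ^ 70)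
    (s' := z ^ 142) (τ := z ^ 41) (μ := ((L : ℝ) ^ d) ^ n * z ^ 141 / 4) (zpos _) z70 (zpos _).le
    le_rfl (K := K) (K₂ := K₂) (k := k) hK3 ?_ (zpos _) z142 hdeg' ?_ ?_ ?_
    (by have := zpos 141; positivity) ?_
    (fun (y : Lam d L n) (i : Fin n) => if i.val < 2 then 0 else y i)
    (fun (y : Lam d L n) (i : Fin 2) => y (Fin.castLE hn i))
    (fun y => y + Pi.single i0 g) (fun y => y + Pi.single i1 g) ?_ ?_ ?_ ?_ (zpos _).le ?_ ?_
    (D := univ.filter fun e => ¬ e.IsDiag) (fun a b hab => by simpa using hab)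
  · rw [graphProb_eq]
    refine le_trans ?_ (key.trans (le_of_eq ?_))
    · rw [hcard, hcardH]
      have a1 := err_one hz0 hz hN hK₂0 hK₂2
      have a2 := err_two hz0 hz hN' (by positivity) hb hk1
      linarith
    · congr
  · by_contra h
    have : K = 0 := by omega
    rw [this] at hK1
    norm_num at hK1
  · intro S hS y
    have a1 := zp hz0 hz (show 0 < 36 by norm_num)
    have a2 := zp hz0 hz (show 0 < 96 by norm_num)
    rw [pow_zero] at a1 a2
    linarith [(hnear S hS).1 y]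
  · intro S hS y
    have a1 := zp hz0 hz (show 70 < 72 by norm_num)
    have a2 := zp hz0 hz (show 70 < 96 by norm_num)
    have e : (z ^ 36) ^ 2 = z ^ 72 := by ring
    linarith [(hnear S hS).2 y, zpos 70]
  · have a1 := zp hz0 hz (show 284 < 286 by norm_num)
    have a2 := mul_le_mul_of_nonneg_left a1 hK₂0
    have a3 := zp hz0 hz (show 0 < 284 by norm_num)
    rw [pow_zero] at a3
    have e : (z ^ 142) ^ 2 / 10 * ((K₂ : ℝ) - 1) = (K₂ * z ^ 284 - z ^ 284) / 10 := by ring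
    rw [e]
    linarith
  · rw [hcard]
    have a1 : exp (-52000) ≤ exp (-(26000 * (z ^ 70) ^ 2 * K)) := by
      refine exp_le_exp.2 ?_
      have e : 26000 * (z ^ 70) ^ 2 * (K : ℝ) = 26000 * (K * z ^ 140) := by ring
      rw [e]
      linarith
    have a2 : z ^ 141 ≤ exp (-(26000 * (z ^ 70) ^ 2 * K)) * ((z ^ 70) ^ 2 / 64) := by
      have := mul_le_mul_of_nonneg_right (he.trans a1) (show 0 ≤ (z ^ 70) ^ 2 / 64 by positivity)
      calc z ^ 141 = 64 * z * ((z ^ 70) ^ 2 / 64) := by ring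
        _ ≤ _ := this
    have a3 := zp hz0 hz (show 141 < 142 by norm_num)
    have a4 : z ^ 141 / 2 ≤ exp (-(26000 * (z ^ 70) ^ 2 * K)) * ((z ^ 70) ^ 2 / 64) - 4 * z ^ 142 := by
      linarith [zpos 141]
    have a5 := mul_le_mul_of_nonneg_left a4 hN0.le
    linarith
  · intro y
    funext i
    split_ifs with h
    · rfl
    · rw [Pi.add_apply, Pi.single_eq_of_ne (fun h' => h (by rw [h']; simp [i0])), add_zero]
  · intro y
    funext i
    split_ifs with h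
    · rfl
    · rw [Pi.add_apply, Pi.single_eq_of_ne (fun h' => h (by rw [h']; simp [i1])), add_zero]
  · intro y y' h1 h2
    funext i
    by_cases h : i.val < 2
    · exact congrFun h2 ⟨i.val, h⟩
    · have := congrFun h1 i
      simpa only [if_neg h] using this
  · intro y
    refine ⟨fun h => hg ?_, fun h => hg ?_, fun h => hg ?_⟩
    · have := congrFun h i0
      simpa using this
    · have := congrFun h i0
      simpa [Pi.single_eq_of_ne hi01] using this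
    · have := congrFun h i1
      simpa using this
  · intro y y' h1 h2
    rw [hpe]
    have a1 : level (y - y') ≤ 2 := level_le.2 fun i hi => by
      have := congrFun h2 i
      simp only [if_neg (not_lt.2 hi)] at this
      rw [Pi.sub_apply, this, sub_self]
    have a2 : level (y - y') ≠ 0 := fun h => h1 (sub_eq_zero.1 (level_eq_zero.1 h))
    have a3 : level (y - y') = 1 ∨ level (y - y') = 2 := by omega
    rcases a3 with h | h <;> rw [h] <;> assumption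
  · have : (Fintype.card (Fin 2 → Fin d → ZMod L) : ℝ) * k ≤ K := by
      rw [hcardH]
      refine le_of_mul_le_mul_right ?_ (zpos 140)
      have a1 : ((L : ℝ) ^ d) ^ 2 * z * (k * z ^ 138) ≤ 1 * 2 :=
        mul_le_mul hb hk2 (by have := zpos 138; positivity) (by norm_num)
      have a2 := mul_le_mul_of_nonneg_right a1 hz0.le
      have e : ((L : ℝ) ^ d) ^ 2 * k * z ^ 140 = ((L : ℝ) ^ d) ^ 2 * z * (k * z ^ 138) * z := by ring
      rw [e]
      linarith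
    exact_mod_cast this

end Pool.Agent.H102Z.Hier
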