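import Pool.Agent.H102Z.Hier.Abs

set_option autoImplicit false

namespace Pool.Agent.H102Z.Hier

open Finset Real

section near
variable {V : Type} [Fintype V] [DecidableEq V] {p : Sym2 V → ℝ}

open Classical in
theorem near_bounds (hp : ∀ e, 0 ≤ p e) (hdeg : ∀ z, ∑ y, p s(z, y) ≤ 2) (nr : V → V → Prop)
    {m r : ℝ} (hm : ∀ x, ∑ y, (if nr x y then p s(x, y) else 0) ≤ m) (hr0 : 0 ≤ r)
    (hr : ∀ x y, ¬ nr x y → p s(x, y) ≤ r) {K : ℕ} (S : Finset V) (hS : S.card ≤ K) :
    (∀ y, dd p S y ≤ m + K * r) ∧ ∀ z, ∑ y, p s(z, y) * dd p S y ≤ m ^ 2 + 4 * K * r := by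
  have hSK : (S.card : ℝ) ≤ K := by exact_mod_cast hS
  have hKr : 0 ≤ (K : ℝ) * r := by positivity
  have h0 : ∀ x y, (0 : ℝ) ≤ if nr x y then p s(x, y) else 0 := fun x y => by
    split_ifs
    · exact hp _
    · exact le_rfl
  have h1 : ∀ y, dd p S y ≤ m + K * r := by
    intro y
    have a1 : dd p S y ≤ ∑ v ∈ S, ((if nr y v then p s(y, v) else 0) + r) := by
      refine sum_le_sum fun v _ => ?_
      rw [Sym2.eq_swap]
      split_ifs with h
      · linarith
      · linarith [hr y v h]
    rw [sum_add_distrib, sum_const, nsmul_eq_mul] at a1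
    have a2 := (sum_le_sum_of_subset_of_nonneg (subset_univ S) fun v _ _ => h0 y v).trans (hm y)
    have a3 := mul_le_mul_of_nonneg_right hSK hr0
    linarith
  refine ⟨h1, fun z => ?_⟩
  have hdd : ∀ y, 0 ≤ dd p S y := fun y => sum_nonneg fun _ _ => hp _
  have hm0 : 0 ≤ m := (sum_nonneg fun y _ => h0 z y).trans (hm z)
  have a1 : ∑ y, p s(z, y) * dd p S y ≤
      ∑ y, ((if nr z y then p s(z, y) else 0) * m + (p s(z, y) * (K * r) + r * dd p S y)) := by
    refine sum_le_sum fun y _ => ?_
    split_ifs with h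
    · have := mul_le_mul_of_nonneg_left (h1 y) (hp s(z, y))
      have := mul_nonneg hr0 (hdd y)
      linarith
    · have := mul_le_mul_of_nonneg_right (hr z y h) (hdd y)
      have := mul_nonneg (hp s(z, y)) hKr
      linarith
  rw [sum_add_distrib, sum_add_distrib, ← sum_mul, ← sum_mul, ← mul_sum] at a1
  have a2 : ∑ y, dd p S y ≤ K * 2 := by
    unfold dd
    rw [sum_comm]
    refine (sum_le_sum fun v _ => hdeg v).trans ?_
    rw [sum_const, nsmul_eq_mul]
    linarith
  have a3 := mul_le_mul_of_nonneg_right (hm z) hm0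
  have a4 := mul_le_mul_of_nonneg_right (hdeg z) hKr
  have a5 := mul_le_mul_of_nonneg_left a2 hr0
  nlinarith

end near

variable {d L n : ℕ}

theorem level_le {x : Lam d L n} {j : ℕ} : level x ≤ j ↔ ∀ i : Fin n, j ≤ i.val → x i = 0 := by
  classical
  unfold level
  rw [Finset.sup_le_iff]
  constructor
  · intro h i hi
    have := h i (mem_univ _)
    by_contra hx
    rw [if_neg hx] at this
    omega
  · intro h i _
    split_ifs with hx
    · exact Nat.zero_le _
    · by_contra hc
      exact hx (h i (by omega))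

theorem level_le_n (x : Lam d L n) : level x ≤ n :=
  level_le.2 fun i hi => absurd i.2 (not_lt.2 hi)

theorem level_eq_zero {x : Lam d L n} : level x = 0 ↔ x = 0 := by
  rw [← Nat.le_zero, level_le]
  exact ⟨fun h => funext fun i => h i (Nat.zero_le _), fun h i _ => by rw [h]; rfl⟩

variable [NeZero L]

theorem card_level_le {j : ℕ} (hj : j ≤ n) :
    (univ.filter fun x : Lam d L n => level x ≤ j).card = (L ^ d) ^ j := by
  classical
  have e : (univ.filter fun x : Lam d L n => level x ≤ j) =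
      Fintype.piFinset fun i : Fin n => if i.val < j then univ else {0} := by
    ext x
    simp only [mem_filter, mem_univ, true_and, level_le, Fintype.mem_piFinset]
    refine forall_congr' fun i => ?_
    split_ifs with h
    · simp only [mem_univ, iff_true]
      intro h'
      omega
    · simp only [mem_singleton]
      exact ⟨fun h' => h' (by omega), fun h' _ => h'⟩
  rw [e, Fintype.card_piFinset]
  have e2 : ∀ i : Fin n, (if i.val < j then (univ : Finset (Fin d → ZMod L)) else {0}).card =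
      if i.val < j then L ^ d else 1 := by
    intro i
    split_ifs
    · simp [ZMod.card]
    · simp
  rw [prod_congr rfl fun i _ => e2 i, prod_ite, prod_const_one, mul_one, prod_const]
  congr 1
  rw [Fin.card_filter_val_lt]
  omega

theorem card_lam : Fintype.card (Lam d L n) = (L ^ d) ^ n := by
  simp [ZMod.card]

theorem sum_level (φ : ℕ → ℝ) :
    ∑ x : Lam d L n, φ (level x) =
      φ 0 + ∑ i ∈ Icc 1 n, (((L : ℝ) ^ d - 1) * ((L : ℝ) ^ d) ^ (i - 1)) * φ i := by
  classical
  rw [← sum_fiberwise_of_maps_to (s := univ) (t := range (n + 1)) (g := level)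
    (fun x _ => mem_range.2 (Nat.lt_succ_of_le (level_le_n x)))]
  have e1 : ∀ i, ∑ x ∈ univ.filter (fun x : Lam d L n => level x = i), φ (level x) =
      (univ.filter (fun x : Lam d L n => level x = i)).card * φ i := by
    intro i
    rw [← nsmul_eq_mul, ← sum_const]
    exact sum_congr rfl fun x hx => by rw [(mem_filter.1 hx).2]
  rw [sum_congr rfl fun i _ => e1 i]
  have e2 : range (n + 1) = insert 0 (Icc 1 n) := by
    ext i
    simp only [mem_range, mem_insert, mem_Icc]
    omega
  rw [e2, sum_insert (by simp)]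
  congr 1
  · have := card_level_le (d := d) (L := L) (n := n) (j := 0) (Nat.zero_le _)
    simp only [Nat.le_zero, pow_zero] at this
    rw [this]
    simp
  · refine sum_congr rfl fun i hi => ?_
    obtain ⟨h1, h2⟩ := mem_Icc.1 hi
    congr 1
    obtain ⟨i, rfl⟩ : ∃ k, i = k + 1 := ⟨i - 1, by omega⟩
    have a1 := card_level_le (d := d) (L := L) (n := n) h2
    have a2 := card_level_le (d := d) (L := L) (n := n) (j := i) (by omega)
    have a3 : (univ.filter fun x : Lam d L n => level x ≤ i + 1) =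
        (univ.filter fun x : Lam d L n => level x ≤ i) ∪
        (univ.filter fun x : Lam d L n => level x = i + 1) := by
      ext x
      simp only [mem_filter, mem_univ, true_and, mem_union]
      omega
    rw [a3, card_union_of_disjoint (disjoint_filter.2 fun x _ h => by omega), a2] at a1
    have a4 : (((L ^ d) ^ i : ℕ) : ℝ) +
        (univ.filter fun x : Lam d L n => level x = i + 1).card = ((L ^ d) ^ (i + 1) : ℕ) := by
      exact_mod_cast a1
    push_cast at a4
    rw [Nat.add_sub_cancel]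
    linear_combination a4

theorem sum_level_sub (φ : ℕ → ℝ) (x : Lam d L n) :
    ∑ y : Lam d L n, φ (level (x - y)) =
      φ 0 + ∑ i ∈ Icc 1 n, (((L : ℝ) ^ d - 1) * ((L : ℝ) ^ d) ^ (i - 1)) * φ i := by
  rw [← sum_level]
  exact Fintype.sum_equiv (Equiv.subLeft x) _ _ fun y => rfl

/-- the edge probability as a function of the level -/
noncomputable def pl (L : ℕ) (ρ : ℝ → ℝ) (ζ η : ℝ) (i : ℕ) : ℝ :=
  if i = 0 then 0 else 1 - exp (-max (ρ ((L : ℝ) ^ i) / ζ + η) 0)

open Classical in
/-- the edge probabilities, zero on the diagonal -/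
noncomputable def pe (ρ : ℝ → ℝ) (ζ lam : ℝ) (e : Sym2 (Lam d L n)) : ℝ :=
  if e.IsDiag then 0 else edgeProb ρ ζ lam e

omit [NeZero L] in
theorem pe_eq (ρ : ℝ → ℝ) (ζ lam : ℝ) (x y : Lam d L n) :
    pe ρ ζ lam s(x, y) = pl L ρ ζ (lam * (L : ℝ) ^ (-(4 * (n : ℝ) * d / 3))) (level (x - y)) := by
  unfold pe pl
  by_cases h : x = y
  · simp [h, level_eq_zero]
  · have h1 : x - y ≠ 0 := sub_ne_zero.2 h
    rw [if_neg (by simpa using h), if_neg (fun h' => h1 (level_eq_zero.1 h'))]
    simp [edgeProb, kappa, hnorm, h1]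

open Classical in
theorem graphProb_eq (ρ : ℝ → ℝ) (ζ lam : ℝ) (E : SimpleGraph (Lam d L n) → Prop) :
    graphProb (edgeProb ρ ζ lam) E = Ex (pe ρ ζ lam) (univ.filter fun e => ¬ e.IsDiag)
      (fun ω : Finset (Sym2 (Lam d L n)) =>
        if E (SimpleGraph.fromEdgeSet (ω : Set (Sym2 (Lam d L n)))) then 1 else 0) := by
  unfold graphProb Ex
  refine sum_congr (by ext s; simp only [mem_powerset, subset_iff, mem_filter]) fun s hs => ?_
  have hs' := mem_powerset.1 hs
  refine congrArg₂ _ (congrArg₂ _ ?_ ?_) rfl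
  · exact prod_congr rfl fun e he => by rw [pe, if_neg (mem_filter.1 (hs' he)).2]
  · refine prod_congr (by ext e; simp only [mem_sdiff, mem_filter]) fun e he => ?_
    rw [pe, if_neg (mem_filter.1 (mem_sdiff.1 he).1).2]

theorem pl_close {ρ : ℝ → ℝ} {ζ η : ℝ} {i : ℕ} (h : 0 ≤ ρ ((L : ℝ) ^ i) / ζ) :
    |pl L ρ ζ η i - pl L ρ ζ 0 i| ≤ |η| := by
  unfold pl
  split_ifs
  · simp
  · set u := ρ ((L : ℝ) ^ i) / ζ
    have key : ∀ a b : ℝ, 0 ≤ a → a ≤ b → exp (-a) - exp (-b) ≤ b - a := by
      intro a b ha hab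
      have h1 : exp (-b) = exp (-a) * exp (-(b - a)) := by rw [← exp_add]; congr 1; ring
      have h2 := add_one_le_exp (-(b - a))
      have h3 : exp (-a) ≤ 1 := exp_le_one_iff.2 (by linarith)
      have h4 := exp_pos (-a)
      nlinarith
    rw [add_zero, max_eq_left h, abs_le]
    have m0 : 0 ≤ max (u + η) 0 := le_max_right _ _
    rcases le_total u (max (u + η) 0) with h1 | h1
    · have := key _ _ h h1
      have h2 : exp (-max (u + η) 0) ≤ exp (-u) := exp_le_exp.2 (by linarith)
      have h3 : max (u + η) 0 ≤ u + |η| := max_le (by linarith [le_abs_self η])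
        (by linarith [abs_nonneg η])
      constructor <;> linarith [abs_nonneg η]
    · have := key _ _ m0 h1
      have h2 : exp (-u) ≤ exp (-max (u + η) 0) := exp_le_exp.2 (by linarith)
      have h3 : u + η ≤ max (u + η) 0 := le_max_left _ _
      constructor <;> linarith [abs_nonneg η, neg_abs_le η]

omit [NeZero L] in
theorem pl_nonneg (ρ : ℝ → ℝ) (ζ η : ℝ) (i : ℕ) : 0 ≤ pl L ρ ζ η i := by
  unfold pl
  split_ifs
  · exact le_rfl
  · exact sub_nonneg.2 (exp_le_one_iff.2 (neg_nonpos.2 (le_max_right _ _)))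

omit [NeZero L] in
theorem pl_le {ρ : ℝ → ℝ} {ζ η U : ℝ} {i : ℕ} (hU : 0 ≤ U)
    (h : i ≠ 0 → ρ ((L : ℝ) ^ i) / ζ ≤ U) : pl L ρ ζ η i ≤ U + |η| := by
  unfold pl
  split_ifs with hi
  · positivity
  · have h1 := add_one_le_exp (-max (ρ ((L : ℝ) ^ i) / ζ + η) 0)
    have h2 : max (ρ ((L : ℝ) ^ i) / ζ + η) 0 ≤ U + |η| :=
      max_le (by linarith [h hi, le_abs_self η]) (by positivity)
    linarith

end Pool.Agent.H102Z.Hier
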