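import Pool.Agent.H102Z.Hier.Fin2

set_option autoImplicit false

namespace Pool.Agent.H102Z.Hier

open Finset Real Filter Topology

variable {d L n : ℕ} [NeZero L]

theorem step_bound2 {ξ : ℝ} (hd : 1 ≤ d) (hL : 2 ≤ L) (hn : 2 ≤ n) {δ A₁ A₂ ζ lam M : ℝ} (hδ0 : 0 < δ)
    (hδ : δ ≤ 1 / 100) (hA₁ : 0 < A₁) (ρ : ℝ → ℝ)
    (hR : ∀ i : ℕ, A₁ * exp (-((1 - δ) * log ((L : ℝ) ^ d) * i)) ≤ ρ ((L : ℝ) ^ i) ∧
      ρ ((L : ℝ) ^ i) ≤ A₂ * exp (-((1 - δ) * log ((L : ℝ) ^ d) * i)))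
    (hζ : 0 < ζ)
    (heq : ((L : ℝ) ^ d - 1) * ∑ i ∈ Icc 1 n, (L : ℝ) ^ ((i - 1) * d) * exp (-ζ⁻¹ * ρ ((L : ℝ) ^ i))
      = (L : ℝ) ^ (n * d) - 2) (hξ : 0 < ξ ∧ ξ ≤ ζ)
    (hM1 : 1000 ≤ M) (hM2 : |lam| ≤ M) (hM3 : 64 ≤ M * exp (-52000))
    (hM5 : 4 * A₂ / A₁ * ((L : ℝ) ^ d) ^ 2 ≤ M) (hM6 : ((L : ℝ) ^ d) ^ 2 ≤ M)
    (hM : M * n * exp (-(δ * log ((L : ℝ) ^ d) * n / 40)) ≤ 1) :
    1 - 2 * exp (-(δ * log ((L : ℝ) ^ d) * n / 40)) ≤
      graphProb (edgeProb (d := d) (L := L) (n := n) ρ ξ lam)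
        (BigTriangle (exp (-(δ * log ((L : ℝ) ^ d) * n / 40)) ^ 140)⁻¹) := by
  have hL' : (2 : ℝ) ≤ L := by exact_mod_cast hL
  have hn' : (2 : ℝ) ≤ n := by exact_mod_cast hn
  obtain ⟨b, hb⟩ : ∃ b : ℝ, b = (L : ℝ) ^ d := ⟨_, rfl⟩
  have hb2 : 2 ≤ b := by
    rw [hb]
    exact hL'.trans (le_self_pow₀ (by linarith) (by omega))
  have hb0 : 0 < b := by linarith
  have hl : 0 < log b := log_pos (by linarith)
  have hlb : log b ≤ b := (log_le_sub_one_of_pos hb0).trans (by linarith)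
  have hbb : b ≤ b ^ 2 := by nlinarith
  have hpow : ∀ i : ℕ, b ^ i = exp (log b * i) := fun i => by
    rw [mul_comm, exp_nat_mul, exp_log hb0]
  obtain ⟨η, hη⟩ : ∃ η, η = lam * (L : ℝ) ^ (-(4 * (n : ℝ) * d / 3)) := ⟨_, rfl⟩
  have hη' : |η| = |lam| * exp (-(4 * (log b * n) / 3)) := by
    rw [hη, abs_mul, abs_of_pos (rpow_pos_of_pos (by linarith) _),
      rpow_def_of_pos (by linarith), hb, log_pow]
    congr 2
    ring
  rw [← hb] at hR hM5 hM6 hM ⊢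
  obtain ⟨z, hz⟩ : ∃ z, z = exp (-(δ * log b * n / 40)) := ⟨_, rfl⟩
  rw [← hz] at hM ⊢
  have hz0 : 0 < z := hz ▸ exp_pos _
  have zpos : ∀ a : ℕ, 0 < z ^ a := fun a => pow_pos hz0 a
  have hzk : ∀ k : ℕ, z ^ k = exp (-(k * (δ * log b * n / 40))) := fun k => by
    rw [hz, ← exp_nat_mul]; congr 1; ring
  have hsm : ∀ c, c ≤ M → c * n * z ≤ 1 := fun c hc =>
    le_trans (mul_le_mul_of_nonneg_right (mul_le_mul_of_nonneg_right hc (by linarith)) hz0.le) hM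
  have hMz : M * z ≤ 1 := by
    have : M * 1 * z ≤ M * n * z :=
      mul_le_mul_of_nonneg_right (mul_le_mul_of_nonneg_left (by linarith) (by linarith)) hz0.le
    linarith
  have hsm' : ∀ c, c ≤ M → c * z ≤ 1 := fun c hc =>
    le_trans (mul_le_mul_of_nonneg_right hc hz0.le) hMz
  have hz1 : z ≤ 1 / 1000 := by linarith [hsm' 1000 hM1]
  have hln : 0 ≤ log b * n := by positivity
  have hδl : δ * log b * n ≤ log b * n / 100 := by
    have := mul_le_mul_of_nonneg_right hδ hln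
    linarith
  have hR0 : ∀ i : ℕ, 0 ≤ ρ ((L : ℝ) ^ i) := fun i =>
    le_trans (mul_nonneg hA₁.le (exp_pos _).le) (hR i).1
  have hA₂ : A₁ ≤ A₂ := le_of_mul_le_mul_right ((hR 0).1.trans (hR 0).2) (exp_pos _)
  -- the normalisation
  have hsum : ∑ i ∈ Icc 1 n, (b - 1) * b ^ (i - 1) = b ^ n - 1 := by
    have h1 := sum_level (d := d) (L := L) (n := n) (fun _ => 1)
    rw [sum_const, card_univ, card_lam, nsmul_eq_mul] at h1
    push_cast at h1
    simp only [mul_one, ← hb] at h1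
    linarith
  have hnorm : ∑ i ∈ Icc 1 n, ((b - 1) * b ^ (i - 1)) * (1 - exp (-(ρ ((L : ℝ) ^ i) / ζ))) = 1 := by
    have h1 : ∑ i ∈ Icc 1 n, ((b - 1) * b ^ (i - 1)) * exp (-(ρ ((L : ℝ) ^ i) / ζ)) = b ^ n - 2 := by
      rw [hb, ← pow_mul, mul_comm d n, ← heq, mul_sum]
      refine sum_congr rfl fun i _ => ?_
      rw [← pow_mul, mul_comm d (i - 1), mul_assoc]
      congr 3
      ring
    simp only [mul_sub, mul_one, sum_sub_distrib]
    rw [h1, hsum]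
    ring
  obtain ⟨hζ1, hζ2⟩ := zeta_bounds hb2 hn hδ0.le (by linarith) hζ (fun i => ρ ((L : ℝ) ^ i)) hR hR0
    hnorm
  have e40 : exp (-(δ * log b * n)) = z ^ 40 := by
    rw [hzk]; congr 1; push_cast; ring
  rw [e40] at hζ1 hζ2
  have hC0 : 0 ≤ 4 * A₂ / A₁ := by have : 0 < A₂ := by linarith
                                   positivity
  have hCb : 4 * A₂ / A₁ * b ≤ M := (mul_le_mul_of_nonneg_left hbb hC0).trans hM5
  have hC : 4 * A₂ / A₁ ≤ M := (le_mul_of_one_le_right hC0 (by linarith)).trans hCb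
  have hζ3 : A₂ / ζ ≤ 4 * A₂ / A₁ * z ^ 40 := by
    have h1 := mul_le_mul_of_nonneg_left hζ1 (show 0 ≤ A₂ / A₁ by
      have : 0 < A₂ := by linarith
      positivity)
    have e : A₂ / A₁ * (A₁ / ζ) = A₂ / ζ := by field_simp
    rw [e] at h1
    refine h1.trans (le_of_eq ?_)
    ring
  -- the size of the perturbation
  have hηN : b ^ n * |η| ≤ z ^ 1332 := by
    have h1 : b ^ n * |η| = |lam| * exp (-(log b * n / 3)) := by
      rw [hη', hpow, mul_left_comm, ← exp_add]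
      congr 2
      ring
    have h2 : exp (-(log b * n / 3)) ≤ z ^ 1333 := by
      rw [hzk]
      refine exp_le_exp.2 ?_
      push_cast
      linarith
    rw [h1]
    have h3 := mul_le_mul_of_nonneg_left h2 (abs_nonneg lam)
    have h4 := mul_le_mul_of_nonneg_right (hsm' _ hM2) (zpos 1332).le
    have e : |lam| * z ^ 1333 = |lam| * z * z ^ 1332 := by ring
    linarith
  have hN1 : 1 ≤ b ^ n := one_le_pow₀ (by linarith)
  have hη1 : |η| ≤ z ^ 1332 := (le_mul_of_one_le_left (abs_nonneg _) hN1).trans hηN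
  have hPle : ∀ i : ℕ, pl L ρ ζ η i ≤
      4 * A₂ / A₁ * z ^ 40 * exp (-((1 - δ) * log b * i)) + |η| := by
    intro i
    refine pl_le (mul_nonneg (mul_nonneg hC0 (zpos _).le) (exp_pos _).le) fun _ => ?_
    refine (div_le_div_of_nonneg_right (hR i).2 hζ.le).trans ?_
    rw [mul_div_right_comm]
    exact mul_le_mul_of_nonneg_right hζ3 (exp_pos _).le
  have hC39 : 4 * A₂ / A₁ * z ^ 40 ≤ z ^ 39 := by
    have := mul_le_mul_of_nonneg_right (hsm' _ hC) (zpos 39).le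
    have e : 4 * A₂ / A₁ * z ^ 40 = 4 * A₂ / A₁ * z * z ^ 39 := by ring
    linarith
  have hτ : ∀ i : ℕ, i ≠ 0 → i ≤ 2 → z ^ 41 ≤ pl L ρ ζ η i := by
    intro i hi0 hi2
    have hi2' : (i : ℝ) ≤ 2 := by exact_mod_cast hi2
    have h1 : (b ^ 2)⁻¹ ≤ exp (-((1 - δ) * log b * i)) := by
      rw [hpow, ← exp_neg]
      refine exp_le_exp.2 ?_
      push_cast
      have : (1 - δ) * i ≤ 2 := by nlinarith [Nat.cast_nonneg (α := ℝ) i]
      nlinarith
    have h2 : A₁ * (b ^ 2)⁻¹ / ζ ≤ ρ ((L : ℝ) ^ i) / ζ :=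
      div_le_div_of_nonneg_right ((mul_le_mul_of_nonneg_left h1 hA₁.le).trans (hR i).1) hζ.le
    have h3 : 4 * z ^ 41 ≤ A₁ * (b ^ 2)⁻¹ / ζ := by
      have a1 := hsm _ hM5
      have a2 : 0 ≤ 4 * z / (n * A₂) * (n * A₂ / ζ - z ^ 40) * (n * A₂) := by
        have : 0 < A₂ := by linarith
        have : 0 ≤ n * A₂ / ζ - z ^ 40 := by linarith
        positivity
      have a3 : 0 ≤ (1 - 4 * A₂ / A₁ * b ^ 2 * n * z) * (A₁ * (b ^ 2)⁻¹ / ζ) := by
        have : 0 ≤ 1 - 4 * A₂ / A₁ * b ^ 2 * n * z := by linarith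
        positivity
      have a4 : 4 * A₂ / A₁ * b ^ 2 * n * z * (A₁ * (b ^ 2)⁻¹ / ζ) = 4 * z * (n * A₂ / ζ) := by
        field_simp
      have a5 := mul_le_mul_of_nonneg_left hζ2 (show 0 ≤ 4 * z by positivity)
      have e : 4 * z * z ^ 40 = 4 * z ^ 41 := by ring
      linarith
    have h4 := zp hz0 hz1 (show 41 < 1332 by norm_num)
    have h5 : 2 * z ^ 41 ≤ max (ρ ((L : ℝ) ^ i) / ζ + η) 0 :=
      le_trans (by linarith [neg_abs_le η, zpos 41]) (le_max_left _ _)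
    have h6 := zp hz0 hz1 (show 0 < 41 by norm_num)
    rw [pow_zero] at h6
    have h7 := exp_two_le (z ^ 41) (zpos _).le (by linarith)
    have h8 : exp (-max (ρ ((L : ℝ) ^ i) / ζ + η) 0) ≤ exp (-(2 * z ^ 41)) :=
      exp_le_exp.2 (by linarith)
    unfold pl
    rw [if_neg hi0]
    linarith
  have hw0 : ∀ i : ℕ, 0 ≤ (b - 1) * b ^ (i - 1) := fun i =>
    mul_nonneg (by linarith) (pow_pos hb0 _).le
  refine fin_bound2 hd hL hn ρ ζ lam (pl L ρ ζ η) (by rw [hη]) hz0 hz1 ?_ ?_ ⌈5 * δ * n⌉₊ ?_ ?_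
    (hτ 1 (by norm_num) (by norm_num)) (hτ 2 (by norm_num) le_rfl) ?_ ?_ ?_
    (hb ▸ hsm' _ hM6) ?_
  · intro i
    have h1 : exp (-((1 - δ) * log b * i)) ≤ 1 := exp_le_one_iff.2 (neg_nonpos.2 (by
      have : 0 ≤ 1 - δ := by linarith
      positivity))
    have h2 := mul_le_mul_of_nonneg_left h1 (mul_nonneg hC0 (zpos 40).le)
    have h3 := zp hz0 hz1 (show 0 < 39 by norm_num)
    have h4 := zp hz0 hz1 (show 0 < 1332 by norm_num)
    rw [pow_zero] at h3 h4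
    linarith [hPle i]
  · rw [← hb]
    have h1 : ∑ i ∈ Icc 1 n, ((b - 1) * b ^ (i - 1)) * pl L ρ ζ 0 i = 1 := by
      refine Eq.trans (sum_congr rfl fun i hi => ?_) hnorm
      have hi' : i ≠ 0 := by have := (mem_Icc.1 hi).1; omega
      rw [pl, if_neg hi', add_zero, max_eq_left (div_nonneg (hR0 i) hζ.le)]
    have h2 : ∑ i ∈ Icc 1 n, ((b - 1) * b ^ (i - 1)) * pl L ρ ζ η i - 1 =
        ∑ i ∈ Icc 1 n, ((b - 1) * b ^ (i - 1)) * (pl L ρ ζ η i - pl L ρ ζ 0 i) := by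
      simp only [mul_sub _ (pl L ρ ζ η _), sum_sub_distrib]
      rw [h1]
    rw [h2]
    refine (abs_sum_le_sum_abs _ _).trans ?_
    have h3 : ∑ i ∈ Icc 1 n, |((b - 1) * b ^ (i - 1)) * (pl L ρ ζ η i - pl L ρ ζ 0 i)| ≤
        ∑ i ∈ Icc 1 n, ((b - 1) * b ^ (i - 1)) * |η| := sum_le_sum fun i _ => by
      rw [abs_mul, abs_of_nonneg (hw0 i)]
      exact mul_le_mul_of_nonneg_left (pl_close (div_nonneg (hR0 i) hζ.le)) (hw0 i)
    rw [← sum_mul, hsum] at h3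
    have h4 := zp hz0 hz1 (show 143 < 1332 by norm_num)
    nlinarith [abs_nonneg η, zpos 143]
  · rw [← hb]
    refine (near_mass hb2 hδ0.le (mul_nonneg hC0 (zpos 40).le) (abs_nonneg η) _
      (pl_nonneg ρ ζ η) hPle).trans ?_
    have h1 : ((⌈5 * δ * n⌉₊ : ℕ) : ℝ) ≤ 5 * δ * n + 1 :=
      (Nat.ceil_lt_add_one (by positivity)).le
    have h2 : exp (δ * log b * (⌈5 * δ * n⌉₊ : ℕ)) * z ^ 2 ≤ b := by
      rw [hzk, ← exp_add]
      refine (exp_le_exp.2 ?_).trans (exp_log hb0).le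
      have a1 := mul_le_mul_of_nonneg_left h1 (show 0 ≤ δ * log b by positivity)
      have a2 : δ * (δ * log b * n) ≤ 1 / 100 * (δ * log b * n) :=
        mul_le_mul_of_nonneg_right hδ (by positivity)
      have a3 : δ * log b ≤ 1 / 100 * log b := mul_le_mul_of_nonneg_right hδ hl.le
      push_cast
      linarith
    have h3 := mul_le_mul_of_nonneg_left h2
      (show 0 ≤ n * (4 * A₂ / A₁) * z ^ 38 by have := zpos 38; positivity)
    have h4 := mul_le_mul_of_nonneg_right (hsm _ hCb) (zpos 37).le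
    have h5 := mul_le_mul_of_nonneg_left hηN (show (0 : ℝ) ≤ n by linarith)
    have h6 := mul_le_mul_of_nonneg_right (hsm 1 (by linarith)) (zpos 1331).le
    have h7 := zp hz0 hz1 (show 36 < 37 by norm_num)
    have h8 := zp hz0 hz1 (show 36 < 1331 by norm_num)
    have e1 : n * (4 * A₂ / A₁) * z ^ 38 * (exp (δ * log b * (⌈5 * δ * n⌉₊ : ℕ)) * z ^ 2) =
      n * (4 * A₂ / A₁ * z ^ 40 * exp (δ * log b * (⌈5 * δ * n⌉₊ : ℕ))) := by ring
    have e2 : n * (4 * A₂ / A₁) * z ^ 38 * b = 4 * A₂ / A₁ * b * n * z * z ^ 37 := by ring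
    have e3 : (n : ℝ) * z ^ 1332 = 1 * n * z * z ^ 1331 := by ring
    rw [mul_add]
    linarith [zpos 36]
  · intro i hi
    have h1 : 5 * δ * n ≤ i := (Nat.le_ceil _).trans (by exact_mod_cast hi.le)
    have h2 : exp (-((1 - δ) * log b * i)) ≤ z ^ 198 := by
      rw [hzk]
      refine exp_le_exp.2 ?_
      have a1 := mul_le_mul_of_nonneg_left h1 (show 0 ≤ (1 - δ) * log b by
        have : 0 ≤ 1 - δ := by linarith
        positivity)
      have a2 : δ * (δ * log b * n) ≤ 1 / 100 * (δ * log b * n) :=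
        mul_le_mul_of_nonneg_right hδ (by positivity)
      push_cast
      linarith
    have h3 := mul_le_mul hC39 h2 (exp_pos _).le (zpos _).le
    have h4 := zp hz0 hz1 (show 236 < 237 by norm_num)
    have h5 := zp hz0 hz1 (show 236 < 1332 by norm_num)
    have e : z ^ 39 * z ^ 198 = z ^ 237 := by ring
    linarith [hPle i, zpos 236]
  · rw [← hb, hpow, hzk, ← exp_add]
    refine one_le_exp ?_
    push_cast
    linarith
  · rw [← hb, hpow]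
    refine exp_le_exp.2 ?_
    rw [inv_eq_one_div, le_div_iff₀ hz0]
    exact hsm _ (hlb.trans (hbb.trans hM6))
  · have h1 := mul_le_mul_of_nonneg_right hM3 hz0.le
    have h2 := mul_le_mul_of_nonneg_right hMz (exp_pos (-52000)).le
    linarith
  · intro i
    rw [← hη]
    unfold pl
    split_ifs
    · exact le_rfl
    · have h1 : ρ ((L : ℝ) ^ i) / ζ ≤ ρ ((L : ℝ) ^ i) / ξ :=
        div_le_div_of_nonneg_left (hR0 i) hξ.1 hξ.2
      have h2 : max (ρ ((L : ℝ) ^ i) / ζ + η) 0 ≤ max (ρ ((L : ℝ) ^ i) / ξ + η) 0 :=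
        max_le_max_right _ (by linarith)
      linarith [exp_le_exp.2 (neg_le_neg h2)]

theorem main2 (hd : 1 ≤ d) (hL : 2 ≤ L) {α A₁ A₂ : ℝ} (hα₁ : 99 / 100 * (d : ℝ) ≤ α) (hα₂ : α < d)
    (hA₁ : 0 < A₁) (ρ : ℝ → ℝ)
    (hρ : ∀ r : ℝ, 1 ≤ r → A₁ * r ^ (-α) ≤ ρ r ∧ ρ r ≤ A₂ * r ^ (-α)) (ζ : ℕ → ℝ)
    (hζ : ∀ n, 2 ≤ n → 0 < ζ n ∧ ((L : ℝ) ^ d - 1) * ∑ i ∈ Icc 1 n,
      (L : ℝ) ^ ((i - 1) * d) * exp (-(ζ n)⁻¹ * ρ ((L : ℝ) ^ i)) = (L : ℝ) ^ (n * d) - 2)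
    (ξ : ℕ → ℝ) (hξ : ∀ n, 2 ≤ n → 0 < ξ n ∧ ξ n ≤ ζ n) (lam : ℝ) :
    Tendsto (fun n : ℕ => graphProb (edgeProb (d := d) (L := L) (n := n) ρ (ξ n) lam)
      (BigTriangle ((L : ℝ) ^ (7 / 2 * (n : ℝ) * (d - α))))) atTop (𝓝 1) := by
  classical
  have hL' : (2 : ℝ) ≤ L := by exact_mod_cast hL
  have hd' : (1 : ℝ) ≤ d := by exact_mod_cast hd
  obtain ⟨δ, hδ⟩ : ∃ δ : ℝ, δ = 1 - α / d := ⟨_, rfl⟩
  have hδ0 : 0 < δ := by
    rw [hδ, sub_pos, div_lt_one (by linarith)]; exact hα₂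
  have hδ1 : δ ≤ 1 / 100 := by
    have : 99 / 100 ≤ α / d := by rw [le_div_iff₀ (by linarith)]; exact hα₁
    linarith
  have hR : ∀ i : ℕ, A₁ * exp (-((1 - δ) * log ((L : ℝ) ^ d) * i)) ≤ ρ ((L : ℝ) ^ i) ∧
      ρ ((L : ℝ) ^ i) ≤ A₂ * exp (-((1 - δ) * log ((L : ℝ) ^ d) * i)) := by
    intro i
    have e : ((L : ℝ) ^ i) ^ (-α) = exp (-((1 - δ) * log ((L : ℝ) ^ d) * i)) := by
      rw [rpow_def_of_pos (by positivity), log_pow, log_pow, hδ]
      congr 1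
      field_simp
      ring
    rw [← e]
    exact hρ _ (one_le_pow₀ (by linarith))
  have hl : 0 < log ((L : ℝ) ^ d) := log_pos (one_lt_pow₀ (by linarith) (by omega))
  obtain ⟨c, hc⟩ : ∃ c, c = δ * log ((L : ℝ) ^ d) / 40 := ⟨_, rfl⟩
  have hc0 : 0 < c := by rw [hc]; positivity
  have hcn : ∀ n : ℕ, δ * log ((L : ℝ) ^ d) * n / 40 = c * n := fun n => by rw [hc]; ring
  have t0 : Tendsto (fun n : ℕ => c * n) atTop atTop :=
    tendsto_natCast_atTop_atTop.const_mul_atTop hc0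
  have t1 : Tendsto (fun n : ℕ => exp (-(c * n))) atTop (𝓝 0) := tendsto_exp_neg_atTop_nhds_zero.comp t0
  obtain ⟨M, hM1, hM2, hM3, hM5, hM6⟩ : ∃ M : ℝ, 1000 ≤ M ∧ |lam| ≤ M ∧
      64 / exp (-52000) ≤ M ∧ 4 * A₂ / A₁ * ((L : ℝ) ^ d) ^ 2 ≤ M ∧
      ((L : ℝ) ^ d) ^ 2 ≤ M :=
    ((eventually_ge_atTop _).and ((eventually_ge_atTop _).and ((eventually_ge_atTop _).and
      ((eventually_ge_atTop _).and (eventually_ge_atTop _))))).exists
  have t2 : Tendsto (fun n : ℕ => M / c * ((c * n) ^ 1 * exp (-(c * n)))) atTop (𝓝 (M / c * 0)) :=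
    ((tendsto_pow_mul_exp_neg_atTop_nhds_zero 1).comp t0).const_mul _
  rw [mul_zero] at t2
  have t3 : Tendsto (fun n : ℕ => 1 - 2 * exp (-(c * n))) atTop (𝓝 (1 - 2 * 0)) :=
    (t1.const_mul 2).const_sub 1
  rw [mul_zero, sub_zero] at t3
  refine tendsto_of_tendsto_of_tendsto_of_le_of_le' t3 tendsto_const_nhds ?_ ?_
  · filter_upwards [eventually_ge_atTop 2, t2.eventually (ge_mem_nhds one_pos)] with n hn h
    have e : (L : ℝ) ^ (7 / 2 * (n : ℝ) * (d - α)) =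
        (exp (-(δ * log ((L : ℝ) ^ d) * n / 40)) ^ 140)⁻¹ := by
      rw [← exp_nat_mul, ← exp_neg, rpow_def_of_pos (by linarith), log_pow, hδ]
      congr 1
      push_cast
      field_simp
      ring
    rw [← hcn, e]
    refine step_bound2 hd hL hn hδ0 hδ1 hA₁ ρ hR (hζ n hn).1 (hζ n hn).2 (hξ n hn) hM1 hM2
      ((div_le_iff₀ (exp_pos _)).1 hM3) hM5 hM6 ?_
    rw [hcn]
    refine le_trans (le_of_eq ?_) h
    field_simp
  · refine Eventually.of_forall fun n => ?_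
    change graphProb _ _ ≤ 1
    rw [graphProb_eq]
    refine le_of_le_of_eq (Ex_mono (g := fun _ => 1) (fun e => ?_) fun s _ => ?_) (Ex_const 1)
    · induction e using Sym2.ind with
      | _ x y =>
      rw [pe_eq]
      refine ⟨pl_nonneg _ _ _ _, ?_⟩
      unfold pl
      split_ifs
      · norm_num
      · linarith [exp_pos (-max (ρ ((L : ℝ) ^ level (x - y)) / ξ n +
          lam * (L : ℝ) ^ (-(4 * (n : ℝ) * d / 3))) 0)]
    · split_ifs <;> norm_num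

end Pool.Agent.H102Z.Hier
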