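import Pool.Agent.H102Z.Hier.Explore

set_option autoImplicit false

namespace Pool.Agent.H102Z.Hier

open Finset Real

variable {V : Type} [Fintype V] [DecidableEq V] {p : Sym2 V → ℝ}

omit [Fintype V] in
theorem re_insert {ω : Finset (Sym2 V)} {x a b v : V} (ha : ¬ Re ω x a) (hb : ¬ Re ω x b)
    (h : Re (insert s(a, b) ω) x v) : Re ω x v := by
  induction h with
  | refl => exact Relation.ReflTransGen.refl
  | @tail c d _ h ih =>
    rcases mem_insert.1 h with h | h
    · rcases Sym2.eq_iff.1 h with h | h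
      · exact absurd (h.1 ▸ ih) ha
      · exact absurd (h.1 ▸ ih) hb
    · exact ih.tail h

section
variable {B : Type} [Fintype B] [DecidableEq B]

open Classical in
/-- the blocks met by the cluster of `x` -/
noncomputable def touch (T : B → Finset V) (x : V) (ω : Finset (Sym2 V)) : Finset B :=
  univ.filter fun β => ∃ v ∈ T β, Re ω x v

/-- no block of `J` is full -/
noncomputable def NF (E : B → Finset (Sym2 V)) (J : Finset B) (ω : Finset (Sym2 V)) : ℝ :=
  ∏ β ∈ J, (1 - if E β ⊆ ω then 1 else 0)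

omit [Fintype V] [Fintype B] [DecidableEq B] in
theorem NF_insert {E : B → Finset (Sym2 V)} {J : Finset B} {e : Sym2 V} (h : ∀ β ∈ J, e ∉ E β)
    (ω : Finset (Sym2 V)) : NF E J (insert e ω) = NF E J ω :=
  prod_congr rfl fun β hβ => by simp only [subset_insert_iff_of_notMem (h β hβ)]

omit [Fintype V] [Fintype B] in
theorem Ex_NF {E : B → Finset (Sym2 V)} {D : Finset (Sym2 V)} (hE : ∀ β, E β ⊆ D)
    (hd : ∀ β β' e, e ∈ E β → e ∈ E β' → β = β') (J : Finset B) :
    Ex p D (NF E J) = ∏ β ∈ J, (1 - ∏ e ∈ E β, p e) := by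
  induction J using Finset.induction_on with
  | empty => exact Ex_const 1
  | insert β J hβ ih =>
    have e1 : NF E (insert β J) = fun ω => NF E J ω * (1 - if E β ⊆ ω then 1 else 0) := by
      funext ω
      unfold NF
      rw [prod_insert hβ, mul_comm]
    rw [e1, Ex_indep (E β), ih, prod_insert hβ, Ex_sub, Ex_const, Ex_subset (hE β), mul_comm]
    · intro e he s
      exact NF_insert (fun β' hβ' h => hβ (hd _ _ _ h he ▸ hβ')) s
    · intro e he s
      simp only [subset_insert_iff_of_notMem he]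

open Classical in
theorem tri_bound (hp : ∀ e, 0 ≤ p e ∧ p e ≤ 1) {D : Finset (Sym2 V)} (T : B → Finset V)
    (E : B → Finset (Sym2 V)) (hE : ∀ β, E β ⊆ D) (hTE : ∀ β a b, s(a, b) ∈ E β → a ∈ T β)
    (hT : ∀ β β' v, v ∈ T β → v ∈ T β' → β = β') {τ : ℝ} (hτ0 : 0 ≤ τ)
    (hτ : ∀ β, τ ≤ ∏ e ∈ E β, p e ∧ ∏ e ∈ E β, p e < 1) (x : V) (k : ℕ) :
    Ex p D (fun ω => if k ≤ (touch T x ω).card ∧ ∀ β ∈ touch T x ω, ¬ E β ⊆ ω then 1 else 0) ≤
      exp (-(τ * k)) := by
  have hd : ∀ β β' e, e ∈ E β → e ∈ E β' → β = β' := by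
    intro β β' e h h'
    induction e using Sym2.ind with
    | _ a b => exact hT _ _ a (hTE _ _ _ h) (hTE _ _ _ h')
  let A : Finset B → Finset (Sym2 V) → ℝ := fun J ω =>
    if touch T x ω = J ∧ ∀ β ∈ J, ¬ E β ⊆ ω then 1 else 0
  have hA0 : ∀ J, 0 ≤ Ex p D (A J) := fun J =>
    Ex_nonneg hp fun ω _ => by simp only [A]; split_ifs <;> norm_num
  have h1 : ∀ J, Ex p D (fun ω => A J ω * NF E Jᶜ ω) =
      Ex p D (A J) * ∏ β ∈ Jᶜ, (1 - ∏ e ∈ E β, p e) := by
    intro J
    rw [Ex_indep (Jᶜ.biUnion E), Ex_NF hE hd]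
    · intro e he ω
      obtain ⟨β₀, hβ₀, he⟩ := mem_biUnion.1 he
      have hβ₁ : β₀ ∉ J := mem_compl.1 hβ₀
      have a1 : β₀ ∉ touch T x ω → touch T x (insert e ω) = touch T x ω := by
        intro h
        induction e using Sym2.ind with
        | _ a b =>
        have ha : ¬ Re ω x a := fun h' => h (by
          simp only [touch, mem_filter, mem_univ, true_and]
          exact ⟨a, hTE _ _ _ he, h'⟩)
        have hb : ¬ Re ω x b := fun h' => h (by
          simp only [touch, mem_filter, mem_univ, true_and]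
          exact ⟨b, hTE _ b a (by rwa [Sym2.eq_swap]), h'⟩)
        ext β
        simp only [touch, mem_filter, mem_univ, true_and]
        exact ⟨fun ⟨v, hv, h'⟩ => ⟨v, hv, re_insert ha hb h'⟩,
          fun ⟨v, hv, h'⟩ => ⟨v, hv, h'.mono (subset_insert _ _)⟩⟩
      have a2 : touch T x ω ⊆ touch T x (insert e ω) := by
        intro β
        simp only [touch, mem_filter, mem_univ, true_and]
        exact fun ⟨v, hv, h'⟩ => ⟨v, hv, h'.mono (subset_insert _ _)⟩
      have a3 : touch T x (insert e ω) = J ↔ touch T x ω = J := by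
        constructor
        · intro h
          rw [← a1 fun h' => hβ₁ (h ▸ a2 h'), h]
        · intro h
          rw [a1 (h ▸ hβ₁), h]
      have a4 : (∀ β ∈ J, ¬ E β ⊆ insert e ω) ↔ ∀ β ∈ J, ¬ E β ⊆ ω :=
        forall₂_congr fun β hβ => by
          rw [subset_insert_iff_of_notMem fun h => hβ₁ (hd _ _ _ h he ▸ hβ)]
      simp only [A, a3, a4]
    · intro e he ω
      exact NF_insert (fun β hβ h => he (mem_biUnion.2 ⟨β, hβ, h⟩)) ω
  have hNF0 : ∀ J ω, 0 ≤ NF E J ω := fun J ω =>
    prod_nonneg fun β _ => by split_ifs <;> norm_num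
  have h2 : ∑ J : Finset B, Ex p D (A J) * ∏ β ∈ Jᶜ, (1 - ∏ e ∈ E β, p e) ≤
      ∏ β, (1 - ∏ e ∈ E β, p e) := by
    rw [← Ex_NF hE hd univ, ← sum_congr rfl fun J _ => h1 J, ← Ex_sum]
    refine Ex_mono hp fun ω _ => ?_
    rw [sum_eq_single (touch T x ω)]
    · simp only [A]
      split_ifs with h
      · have : NF E (touch T x ω) ω = 1 := prod_eq_one fun β hβ => by
          rw [if_neg (h.2 β hβ), sub_zero]
        have e : NF E univ ω = NF E (touch T x ω) ω * NF E (touch T x ω)ᶜ ω :=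
          (prod_mul_prod_compl _ _).symm
        rw [e, this]
      · rw [zero_mul]
        exact hNF0 _ _
    · intro J _ hJ
      simp only [A]
      rw [if_neg fun h => hJ h.1.symm, zero_mul]
    · intro h
      exact absurd (mem_univ _) h
  have hP : 0 < ∏ β, (1 - ∏ e ∈ E β, p e) := prod_pos fun β _ => sub_pos.2 (hτ β).2
  have h3 : ∀ J : Finset B, (if k ≤ J.card then Ex p D (A J) else 0) * ∏ β, (1 - ∏ e ∈ E β, p e) ≤
      exp (-(τ * k)) * (Ex p D (A J) * ∏ β ∈ Jᶜ, (1 - ∏ e ∈ E β, p e)) := by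
    intro J
    have b0 : 0 ≤ ∏ β ∈ Jᶜ, (1 - ∏ e ∈ E β, p e) := prod_nonneg fun β _ => (sub_pos.2 (hτ β).2).le
    split_ifs with h
    · rw [← prod_mul_prod_compl J]
      have b1 : ∏ β ∈ J, (1 - ∏ e ∈ E β, p e) ≤ exp (-(τ * k)) := by
        calc _ ≤ ∏ _β ∈ J, exp (-τ) := prod_le_prod (fun β _ => (sub_pos.2 (hτ β).2).le)
              fun β _ => by linarith [add_one_le_exp (-τ), (hτ β).1]
          _ = exp (-(τ * J.card)) := by rw [prod_const, ← exp_nat_mul]; congr 1; ring
          _ ≤ _ := exp_le_exp.2 (neg_le_neg (mul_le_mul_of_nonneg_left (by exact_mod_cast h) hτ0))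
      have b2 := mul_le_mul_of_nonneg_right b1 (mul_nonneg (hA0 J) b0)
      linarith
    · rw [zero_mul]
      exact mul_nonneg (exp_pos _).le (mul_nonneg (hA0 J) b0)
  have h4 := sum_le_sum fun J (_ : J ∈ (univ : Finset (Finset B))) => h3 J
  rw [← sum_mul, ← mul_sum] at h4
  have h5 := le_of_mul_le_mul_right (h4.trans (mul_le_mul_of_nonneg_left h2 (exp_pos _).le)) hP
  refine le_trans (le_of_eq ?_) h5
  have h6 : ∀ J : Finset B, (if k ≤ J.card then Ex p D (A J) else 0) =
      Ex p D (fun ω => if k ≤ J.card then A J ω else 0) := by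
    intro J
    split_ifs
    · rfl
    · exact (Ex_const 0).symm
  rw [sum_congr rfl fun J _ => h6 J, ← Ex_sum]
  refine Ex_congr fun ω _ => ?_
  rw [sum_eq_single (touch T x ω)]
  · simp only [A, true_and]
    by_cases a1 : k ≤ (touch T x ω).card <;> simp [a1]
  · intro J _ hJ
    simp only [A]
    rw [if_neg (c := touch T x ω = J ∧ _) fun h => hJ h.1.symm, ite_self]
  · intro h
    exact absurd (mem_univ _) h

end

end Pool.Agent.H102Z.Hier
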