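import Pool.Agent.H102Z.Hier.Lat

set_option autoImplicit false

namespace Pool.Agent.H102Z.Hier

open Finset Real

theorem zeta_bounds {b δ A₁ A₂ ζ : ℝ} {n : ℕ} (hb : 2 ≤ b) (hn : 2 ≤ n) (hδ : 0 ≤ δ)
    (hA₂ : 0 ≤ A₂) (hζ : 0 < ζ) (R : ℕ → ℝ)
    (hR : ∀ i : ℕ, A₁ * exp (-((1 - δ) * log b * i)) ≤ R i ∧
      R i ≤ A₂ * exp (-((1 - δ) * log b * i)))
    (hR0 : ∀ i, 0 ≤ R i)
    (h : ∑ i ∈ Icc 1 n, ((b - 1) * b ^ (i - 1)) * (1 - exp (-(R i / ζ))) = 1) :
    A₁ / ζ ≤ 4 * exp (-(δ * log b * n)) ∧ exp (-(δ * log b * n)) ≤ n * A₂ / ζ := by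
  have hb0 : 0 < b := by linarith
  have hl : 0 < log b := log_pos (by linarith)
  have hpow : ∀ i : ℕ, b ^ i = exp (log b * i) := fun i => by
    rw [mul_comm, exp_nat_mul, exp_log hb0]
  have hq0 : ∀ i, 0 ≤ 1 - exp (-(R i / ζ)) := fun i =>
    sub_nonneg.2 (exp_le_one_iff.2 (neg_nonpos.2 (div_nonneg (hR0 i) hζ.le)))
  constructor
  · have a1 : ((b - 1) * b ^ (n - 1)) * (1 - exp (-(R n / ζ))) ≤ 1 := by
      refine le_of_le_of_eq ?_ h
      have hb1 : 0 ≤ b - 1 := by linarith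
      exact single_le_sum (f := fun i => ((b - 1) * b ^ (i - 1)) * (1 - exp (-(R i / ζ))))
        (fun i _ => mul_nonneg (mul_nonneg hb1 (pow_pos hb0 _).le) (hq0 i))
        (mem_Icc.2 ⟨by omega, le_rfl⟩)
    have a2 : b ^ n = b * b ^ (n - 1) := by
      rw [← pow_succ']; congr 1; omega
    have a3 : b ^ n / 2 ≤ (b - 1) * b ^ (n - 1) := by
      rw [a2]
      nlinarith [pow_pos hb0 (n - 1)]
    have a4 : 4 ≤ b ^ n := by
      calc (4 : ℝ) = 2 ^ 2 := by norm_num
        _ ≤ 2 ^ n := pow_le_pow_right₀ (by norm_num) hn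
        _ ≤ _ := pow_le_pow_left₀ (by norm_num) hb n
    have a5 : 1 - exp (-(R n / ζ)) ≤ 2 / b ^ n := by
      rw [le_div_iff₀ (by positivity)]
      nlinarith [mul_le_mul_of_nonneg_right a3 (hq0 n)]
    have a6 : R n / ζ ≤ 2 * (2 / b ^ n) := by
      by_contra hcon
      have c1 := exp_two_le (2 / b ^ n) (by positivity) (by
        rw [div_le_iff₀ (by positivity)]; linarith)
      have c2 : exp (-(R n / ζ)) < exp (-(2 * (2 / b ^ n))) := exp_lt_exp.2 (by linarith)
      linarith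
    have a7 : A₁ * exp (-((1 - δ) * log b * n)) / ζ ≤ 2 * (2 / b ^ n) :=
      (div_le_div_of_nonneg_right (hR n).1 hζ.le).trans a6
    have a8 : 2 * (2 / b ^ n) = 4 * exp (-(δ * log b * n)) * exp (-((1 - δ) * log b * n)) := by
      rw [hpow, mul_assoc, ← exp_add, div_eq_mul_inv, ← exp_neg]
      have : -(δ * log b * n) + -((1 - δ) * log b * n) = -(log b * n) := by ring
      rw [this]
      ring
    rw [a8, mul_div_right_comm] at a7
    exact le_of_mul_le_mul_right a7 (exp_pos _)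
  · have a1 : ∀ i ∈ Icc 1 n, ((b - 1) * b ^ (i - 1)) * (1 - exp (-(R i / ζ))) ≤
        A₂ / ζ * exp (δ * log b * n) := by
      intro i hi
      obtain ⟨h1, h2⟩ := mem_Icc.1 hi
      have c1 : (b - 1) * b ^ (i - 1) ≤ b ^ i := by
        have : b ^ i = b * b ^ (i - 1) := by
          rw [← pow_succ']; congr 1; omega
        rw [this]
        nlinarith [pow_pos hb0 (i - 1)]
      have c2 : 1 - exp (-(R i / ζ)) ≤ A₂ * exp (-((1 - δ) * log b * i)) / ζ := by
        linarith [add_one_le_exp (-(R i / ζ)), div_le_div_of_nonneg_right (hR i).2 hζ.le]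
      refine (mul_le_mul c1 c2 (hq0 i) (by positivity)).trans ?_
      have c3 : b ^ i * (A₂ * exp (-((1 - δ) * log b * i)) / ζ) = A₂ / ζ * exp (δ * log b * i) := by
        rw [hpow]
        have : exp (δ * log b * i) = exp (log b * i) * exp (-((1 - δ) * log b * i)) := by
          rw [← exp_add]; congr 1; ring
        rw [this]
        ring
      rw [c3]
      refine mul_le_mul_of_nonneg_left (exp_le_exp.2 ?_) (by positivity)
      exact mul_le_mul_of_nonneg_left (by exact_mod_cast h2) (by positivity)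
    have a2 := sum_le_sum a1
    rw [h, sum_const, Nat.card_Icc, Nat.add_sub_cancel, nsmul_eq_mul] at a2
    rw [exp_neg, inv_le_iff_one_le_mul₀ (exp_pos _)]
    refine a2.trans (le_of_eq ?_)
    ring

/-- mass of the levels up to `j` -/
theorem near_mass {b δ C η : ℝ} {n j : ℕ} (hb : 2 ≤ b) (hδ : 0 ≤ δ) (hC : 0 ≤ C) (hη : 0 ≤ η)
    (P : ℕ → ℝ) (hP0 : ∀ i, 0 ≤ P i)
    (hP : ∀ i : ℕ, P i ≤ C * exp (-((1 - δ) * log b * i)) + η) :
    ∑ i ∈ Icc 1 n, ((b - 1) * b ^ (i - 1)) * (if i ≤ j then P i else 0) ≤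
      n * (C * exp (δ * log b * j) + b ^ n * η) := by
  have hb0 : 0 < b := by linarith
  have hl : 0 < log b := log_pos (by linarith)
  have hpow : ∀ i : ℕ, b ^ i = exp (log b * i) := fun i => by
    rw [mul_comm, exp_nat_mul, exp_log hb0]
  have a1 : ∀ i ∈ Icc 1 n, ((b - 1) * b ^ (i - 1)) * (if i ≤ j then P i else 0) ≤
      C * exp (δ * log b * j) + b ^ n * η := by
    intro i hi
    obtain ⟨h1, h2⟩ := mem_Icc.1 hi
    split_ifs with hij
    · have c1 : (b - 1) * b ^ (i - 1) ≤ b ^ i := by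
        have : b ^ i = b * b ^ (i - 1) := by
          rw [← pow_succ']; congr 1; omega
        rw [this]
        nlinarith [pow_pos hb0 (i - 1)]
      refine (mul_le_mul c1 (hP i) (hP0 i) (by positivity)).trans ?_
      have c3 : b ^ i * (C * exp (-((1 - δ) * log b * i))) = C * exp (δ * log b * i) := by
        rw [hpow]
        have : exp (δ * log b * i) = exp (log b * i) * exp (-((1 - δ) * log b * i)) := by
          rw [← exp_add]; congr 1; ring
        rw [this]
        ring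
      rw [mul_add, c3]
      refine add_le_add (mul_le_mul_of_nonneg_left (exp_le_exp.2 ?_) hC)
        (mul_le_mul_of_nonneg_right (pow_le_pow_right₀ (by linarith) h2) hη)
      exact mul_le_mul_of_nonneg_left (by exact_mod_cast hij) (by positivity)
    · rw [mul_zero]
      positivity
  have a2 := sum_le_sum a1
  rwa [sum_const, Nat.card_Icc, Nat.add_sub_cancel, nsmul_eq_mul] at a2

theorem ceil_pow {z : ℝ} (hz0 : 0 < z) (hz1 : z ≤ 1) (a : ℕ) :
    ∃ K : ℕ, 1 ≤ K * z ^ a ∧ K * z ^ a ≤ 2 := by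
  have h0 : 0 < z ^ a := pow_pos hz0 a
  have h1 : z ^ a ≤ 1 := pow_le_one₀ hz0.le hz1
  refine ⟨⌈(z ^ a)⁻¹⌉₊, ?_, ?_⟩
  · rw [← inv_le_iff_one_le_mul₀ h0]
    exact Nat.le_ceil _
  · have := (Nat.ceil_lt_add_one (inv_nonneg.2 h0.le)).le
    have h2 := mul_le_mul_of_nonneg_right this h0.le
    rw [add_mul, inv_mul_cancel₀ h0.ne'] at h2
    linarith

end Pool.Agent.H102Z.Hier
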